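import Mathlib

/-!
Elementary facts on the valuation ring of `K_v` when `v = (ϖ)` is principal.
-/

namespace Pool.Agent.H94.TC

open Polynomial WithZero IsDedekindDomain HeightOneSpectrum

section

variable {A K : Type*} [CommRing A] [IsDedekindDomain A] [Field K] [Algebra A K]
  [IsFractionRing A K] (v : HeightOneSpectrum A) (ϖ : A)

theorem val_varpi (hϖ : ϖ ≠ 0) (hv : v.asIdeal = Ideal.span {ϖ}) :
    (Valued.v ((algebraMap A (v.adicCompletionIntegers K) ϖ : v.adicCompletionIntegers K) :
      v.adicCompletion K) : ℤᵐ⁰) = exp (-1 : ℤ) := by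
  rw [algebraMap_adicCompletionIntegers_apply, valuedAdicCompletion_eq_valuation',
    valuation_of_algebraMap, v.intValuation_singleton hϖ hv]

theorem val_alg (y : A) :
    (Valued.v ((algebraMap A (v.adicCompletionIntegers K) y : v.adicCompletionIntegers K) :
      v.adicCompletion K) : ℤᵐ⁰) = v.intValuation y := by
  rw [algebraMap_adicCompletionIntegers_apply, valuedAdicCompletion_eq_valuation',
    valuation_of_algebraMap]

theorem pow_dvd_iff (hϖ : ϖ ≠ 0) (hv : v.asIdeal = Ideal.span {ϖ}) (n : ℕ)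
    (x : v.adicCompletionIntegers K) :
    (algebraMap A (v.adicCompletionIntegers K) ϖ) ^ n ∣ x ↔
      (Valued.v (x : v.adicCompletion K) : ℤᵐ⁰) ≤ exp (-(n : ℤ)) := by
  have h1 := val_varpi (K := K) v ϖ hϖ hv
  set p := algebraMap A (v.adicCompletionIntegers K) ϖ with hp
  have hpn : (Valued.v ((p : v.adicCompletion K) ^ n) : ℤᵐ⁰) = exp (-(n : ℤ)) := by
    rw [map_pow, h1, ← exp_nsmul]; simp
  have hp0 : (p : v.adicCompletion K) ^ n ≠ 0 := by
    intro h
    rw [h, map_zero] at hpn
    exact exp_ne_zero hpn.symm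
  constructor
  · rintro ⟨y, rfl⟩
    have : ((p ^ n * y : v.adicCompletionIntegers K) : v.adicCompletion K) =
        (p : v.adicCompletion K) ^ n * y := by push_cast; rfl
    rw [this, map_mul, hpn]
    exact mul_le_of_le_one_right' y.2
  · intro h
    have h2 : (Valued.v ((x : v.adicCompletion K) / (p : v.adicCompletion K) ^ n) : ℤᵐ⁰) ≤ 1 := by
      rw [map_div₀, hpn]
      exact div_le_one_of_le₀ h (zero_le)
    refine ⟨⟨_, h2⟩, ?_⟩
    apply Subtype.ext
    push_cast
    exact (mul_div_cancel₀ _ hp0).symm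

theorem dvd_iff_lt_one (hϖ : ϖ ≠ 0) (hv : v.asIdeal = Ideal.span {ϖ})
    (x : v.adicCompletionIntegers K) :
    (algebraMap A (v.adicCompletionIntegers K) ϖ) ∣ x ↔
      (Valued.v (x : v.adicCompletion K) : ℤᵐ⁰) < 1 := by
  have := pow_dvd_iff (K := K) v ϖ hϖ hv 1 x
  rw [pow_one] at this
  rw [this]
  rw [← exp_zero]
  constructor
  · intro h
    refine lt_of_le_of_lt h ?_
    rw [exp_lt_exp]; norm_num
  · intro h
    by_cases hx : (Valued.v (x : v.adicCompletion K) : ℤᵐ⁰) = 0
    · rw [hx]; exact zero_le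
    · rw [← exp_log hx] at h ⊢
      rw [exp_lt_exp] at h
      rw [exp_le_exp]
      push_cast
      omega

theorem exists_approx (hϖ : ϖ ≠ 0) (hv : v.asIdeal = Ideal.span {ϖ}) (n : ℕ)
    (x : v.adicCompletionIntegers K) :
    ∃ y : A, (algebraMap A (v.adicCompletionIntegers K) ϖ) ^ n ∣
      x - algebraMap A (v.adicCompletionIntegers K) y := by
  -- approximate by an element of `K`
  obtain ⟨z, hz⟩ : ∃ z : K, (Valued.v ((x : v.adicCompletion K) -
      algebraMap K (v.adicCompletion K) z) : ℤᵐ⁰) < exp (-(n : ℤ)) := by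
    have h1 : {y : v.adicCompletion K | (Valued.v (y - x) : ℤᵐ⁰) < exp (-(n : ℤ))} ∈
        nhds (x : v.adicCompletion K) := by
      by_cases hn : ∃ u : v.adicCompletion K, (Valued.v u : ℤᵐ⁰) = exp (-(n : ℤ))
      · obtain ⟨u, hu⟩ := hn
        have hu0 : u ≠ 0 := by
          rintro rfl
          rw [map_zero] at hu
          exact exp_ne_zero hu.symm
        have h2 : ContinuousAt (fun y : v.adicCompletion K => (y - x) / u) x := by
          fun_prop (disch := assumption)
        have h3 : {y : v.adicCompletion K | (Valued.v y : ℤᵐ⁰) < 1} ∈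
            nhds ((x : v.adicCompletion K) - x) := by
          rw [sub_self, Valued.mem_nhds_zero]
          refine ⟨1, ?_⟩
          intro y hy
          simpa [Valuation.restrict_lt_one_iff] using hy
        have h4 := h2.preimage_mem_nhds (t := {y : v.adicCompletion K | (Valued.v y : ℤᵐ⁰) < 1})
          (by simpa using h3)
        filter_upwards [h4] with y hy
        have h5 : (Valued.v ((y - x) / u) : ℤᵐ⁰) < 1 := hy
        rw [map_div₀, hu, div_lt_one₀ (by simp)] at h5
        exact h5
      · exfalso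
        apply hn
        obtain ⟨u, hu⟩ := valuation_surjective K v (exp (-(n : ℤ)))
        exact ⟨algebraMap K (v.adicCompletion K) u, by
          rw [algebraMap_adicCompletion]
          exact (valuedAdicCompletion_eq_valuation' v u).trans hu⟩
    obtain ⟨z, hz⟩ := (denseRange_algebraMap K v).exists_mem_open isOpen_interior
      ⟨x, mem_interior_iff_mem_nhds.2 h1⟩
    refine ⟨z, ?_⟩
    have := interior_subset hz
    rw [Valuation.map_sub_swap]
    exact this
  have hz1 : v.valuation K z ≤ 1 := by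
    have h2 : (Valued.v (algebraMap K (v.adicCompletion K) z) : ℤᵐ⁰) = v.valuation K z := by
      rw [algebraMap_adicCompletion]
      exact valuedAdicCompletion_eq_valuation' v z
    rw [← h2]
    have h3 : algebraMap K (v.adicCompletion K) z = x - (x - algebraMap K (v.adicCompletion K) z) := by
      ring
    rw [h3]
    refine (Valuation.map_sub _ _ _).trans (max_le x.2 ?_)
    refine hz.le.trans ?_
    rw [← exp_zero, exp_le_exp]; omega
  obtain ⟨y, hy⟩ := exists_valuation_sub_lt_of_integer v hz1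
    (Units.mk0 (exp (-(n : ℤ))) (by simp))
  refine ⟨y, ?_⟩
  rw [pow_dvd_iff (K := K) v ϖ hϖ hv]
  have h4 : ((x - algebraMap A (v.adicCompletionIntegers K) y : v.adicCompletionIntegers K) :
      v.adicCompletion K) = (x - algebraMap K (v.adicCompletion K) z) -
        algebraMap K (v.adicCompletion K) (algebraMap A K y - z) := by
    rw [map_sub]
    rw [algebraMap_adicCompletion]
    push_cast
    rw [algebraMap_adicCompletionIntegers_apply]
    simp only [Function.comp, Algebra.algebraMap_self_apply]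
    ring
  rw [h4]
  refine (Valuation.map_sub _ _ _).trans (max_le hz.le ?_)
  have h5 : (Valued.v (algebraMap K (v.adicCompletion K) (algebraMap A K y - z)) : ℤᵐ⁰) =
      v.valuation K (algebraMap A K y - z) := by
    rw [algebraMap_adicCompletion]
    exact valuedAdicCompletion_eq_valuation' v _
  rw [h5]
  exact hy.le

theorem exists_poly_approx (hϖ : ϖ ≠ 0) (hv : v.asIdeal = Ideal.span {ϖ}) (n : ℕ)
    (P : (v.adicCompletionIntegers K)[X]) :
    ∃ Q : A[X], (C (algebraMap A (v.adicCompletionIntegers K) ϖ)) ^ n ∣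
      P - Q.map (algebraMap A (v.adicCompletionIntegers K)) := by
  induction P using Polynomial.induction_on' with
  | add P1 P2 h1 h2 =>
    obtain ⟨Q1, h1⟩ := h1
    obtain ⟨Q2, h2⟩ := h2
    refine ⟨Q1 + Q2, ?_⟩
    have : P1 + P2 - (Q1 + Q2).map (algebraMap A (v.adicCompletionIntegers K)) =
      (P1 - Q1.map (algebraMap A (v.adicCompletionIntegers K))) +
      (P2 - Q2.map (algebraMap A (v.adicCompletionIntegers K))) := by
      rw [Polynomial.map_add]; ring
    rw [this]
    exact dvd_add h1 h2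
  | monomial m a =>
    obtain ⟨y, hy⟩ := exists_approx (K := K) v ϖ hϖ hv n a
    refine ⟨monomial m y, ?_⟩
    rw [Polynomial.map_monomial, ← C_mul_X_pow_eq_monomial, ← C_mul_X_pow_eq_monomial,
      ← sub_mul, ← C_sub, ← C_pow]
    exact Dvd.dvd.mul_right (map_dvd C hy) _

theorem dvd_of_map_dvd (hϖ : ϖ ≠ 0) (hv : v.asIdeal = Ideal.span {ϖ}) (n : ℕ) (h : A[X])
    (hd : (C (algebraMap A (v.adicCompletionIntegers K) ϖ)) ^ n ∣
      h.map (algebraMap A (v.adicCompletionIntegers K))) : (C ϖ) ^ n ∣ h := by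
  rw [← C_pow, C_dvd_iff_dvd_coeff] at hd ⊢
  intro i
  have h1 := hd i
  rw [coeff_map, pow_dvd_iff (K := K) v ϖ hϖ hv, val_alg, intValuation_le_pow_iff_dvd, hv,
    Ideal.span_singleton_pow] at h1
  have h2 := Ideal.le_of_dvd h1
  rwa [Ideal.span_singleton_le_span_singleton] at h2

theorem residue_eq_zero_iff (hϖ : ϖ ≠ 0) (hv : v.asIdeal = Ideal.span {ϖ})
    (x : v.adicCompletionIntegers K) :
    IsLocalRing.residue (v.adicCompletionIntegers K) x = 0 ↔
      algebraMap A (v.adicCompletionIntegers K) ϖ ∣ x := by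
  rw [IsLocalRing.residue_eq_zero_iff, IsLocalRing.mem_maximalIdeal, mem_nonunits_iff,
    adicCompletionIntegers.isUnit_iff_valued_eq_one, dvd_iff_lt_one (K := K) v ϖ hϖ hv]
  exact ⟨fun h => lt_of_le_of_ne x.2 h, fun h => h.ne⟩

theorem prime_C_varpi (hϖ : ϖ ≠ 0) (hv : v.asIdeal = Ideal.span {ϖ}) :
    Prime (C (algebraMap A (v.adicCompletionIntegers K) ϖ) : (v.adicCompletionIntegers K)[X]) := by
  rw [Polynomial.prime_C_iff]
  refine ⟨?_, ?_, ?_⟩
  · intro h
    have := val_varpi (K := K) v ϖ hϖ hv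
    rw [h, ZeroMemClass.coe_zero, map_zero] at this
    exact exp_ne_zero this.symm
  · intro h
    rw [adicCompletionIntegers.isUnit_iff_valued_eq_one, val_varpi (K := K) v ϖ hϖ hv] at h
    have : exp (-1 : ℤ) = exp 0 := by rw [h, exp_zero]
    rw [exp_inj] at this
    omega
  · intro a b hab
    rw [← residue_eq_zero_iff (K := K) v ϖ hϖ hv, map_mul, mul_eq_zero] at hab
    rw [← residue_eq_zero_iff (K := K) v ϖ hϖ hv, ← residue_eq_zero_iff (K := K) v ϖ hϖ hv]
    exact hab

end

end Pool.Agent.H94.TC
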