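import Mathlib

/-!
The map of completions `K_v → L_w` for `w` above `v`.
-/

namespace Pool.Agent.H94.TC

open Polynomial WithZero IsDedekindDomain HeightOneSpectrum

section

variable {A K : Type*} (L : Type*) {B : Type*}
variable [CommRing A] [IsDedekindDomain A] [CommRing B] [IsDedekindDomain B] [Algebra A B]
  [Module.IsTorsionFree A B]
variable [Field K] [Field L] [Algebra K L]
variable [Algebra A K] [IsFractionRing A K] [Algebra A L] [IsScalarTower A K L]
variable [Algebra B L] [IsFractionRing B L] [IsScalarTower A B L]
variable (v : HeightOneSpectrum A) (w : HeightOneSpectrum B) [w.asIdeal.LiesOver v.asIdeal]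

variable (K) in
noncomputable def compMap : v.adicCompletion K →+* w.adicCompletion L :=
  (adicCompletion.equiv L w).symm.toRingHom.comp
    ((UniformSpace.Completion.mapRingHom
      (algebraMap (WithVal (v.valuation K)) (WithVal (w.valuation L)))
      (uniformContinuous_algebraMap_liesOver K L v w).continuous).comp
      (adicCompletion.equiv K v).toRingHom)

theorem compMap_apply (x : v.adicCompletion K) : compMap K L v w x =
    adicCompletion.ofCompletion (UniformSpace.Completion.map
      (algebraMap (WithVal (v.valuation K)) (WithVal (w.valuation L))) x.toCompletion) := rfl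

theorem compMap_coe (x : K) : compMap K L v w (algebraMap K (v.adicCompletion K) x) =
    algebraMap L (w.adicCompletion L) (algebraMap K L x) := by
  rw [compMap_apply]
  rw [algebraMap_adicCompletion, algebraMap_adicCompletion]
  apply adicCompletion.ext
  simp only [Function.comp, adicCompletion.coe_toCompletion]
  exact UniformSpace.Completion.map_coe (uniformContinuous_algebraMap_liesOver K L v w) _

theorem continuous_compMap : Continuous (compMap K L v w) := by
  have : ⇑(compMap K L v w) = adicCompletion.ofCompletion ∘ (UniformSpace.Completion.map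
      (algebraMap (WithVal (v.valuation K)) (WithVal (w.valuation L)))) ∘
        adicCompletion.toCompletion := by
    funext x; exact compMap_apply L v w x
  rw [this]
  exact (adicCompletion.continuous_ofCompletion L w).comp
    (UniformSpace.Completion.continuous_map.comp (adicCompletion.continuous_toCompletion K v))

theorem valued_compMap (x : v.adicCompletion K) :
    Valued.v (compMap K L v w x) = (Valued.v x) ^ (v.asIdeal.ramificationIdx' w.asIdeal) := by
  have he : v.asIdeal.ramificationIdx' w.asIdeal ≠ 0 :=
    Ideal.IsDedekindDomain.ramificationIdx'_ne_zero_of_liesOver w.asIdeal v.ne_bot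
  by_cases hx : x = 0
  · subst hx; simp [he]
  have h1 : {y | (Valued.v y : ℤᵐ⁰) = Valued.v x} ∈ nhds x :=
    Valued.locally_const (by simpa using hx)
  have hx' : compMap K L v w x ≠ 0 := by
    rw [Ne, map_eq_zero]; exact hx
  have h2 : {y | (Valued.v y : ℤᵐ⁰) = Valued.v (compMap K L v w x)} ∈
      nhds (compMap K L v w x) := Valued.locally_const (by simpa using hx')
  have h3 := (continuous_compMap L v w).continuousAt.preimage_mem_nhds h2
  obtain ⟨y, hy1⟩ := (denseRange_algebraMap K v).exists_mem_open isOpen_interior
    ⟨x, mem_interior_iff_mem_nhds.2 (Filter.inter_mem h1 h3)⟩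
  obtain ⟨hy3, hy4⟩ := interior_subset hy1
  have hy5 : (Valued.v (algebraMap K (v.adicCompletion K) y) : ℤᵐ⁰) = Valued.v x := hy3
  have hy6 : (Valued.v (compMap K L v w (algebraMap K (v.adicCompletion K) y)) : ℤᵐ⁰) =
    Valued.v (compMap K L v w x) := hy4
  rw [← hy6, ← hy5, compMap_coe]
  have h7 : (Valued.v (algebraMap K (v.adicCompletion K) y) : ℤᵐ⁰) = v.valuation K y := by
    rw [algebraMap_adicCompletion]
    exact valuedAdicCompletion_eq_valuation' v y
  have h8 : (Valued.v (algebraMap L (w.adicCompletion L) (algebraMap K L y)) : ℤᵐ⁰) =
      w.valuation L (algebraMap K L y) := by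
    rw [algebraMap_adicCompletion]
    exact valuedAdicCompletion_eq_valuation' w _
  rw [h7, h8, ← valuation_liesOver L v w]

end

end Pool.Agent.H94.TC
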