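import Pool.Agent.H94.TC.Hval

/-!
Regularity: if `A[x]/(f)` is a Dedekind domain then `f ∉ M²` for the maximal ideals `M`
of `A[x]` containing `f` and a prime element of `A`.
-/

namespace Pool.Agent.H94.TC

open Polynomial WithZero IsDedekindDomain

section

variable {A : Type*} [CommRing A] [IsDomain A]

theorem reg_core {k : Type*} [Field k] (ρ : A →+* k) (hsurj : Function.Surjective ρ) (ϖ : A)
    (hker : ∀ x, ρ x = 0 ↔ ϖ ∣ x) (f : A[X]) [IsDedekindDomain (AdjoinRoot f)]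
    (L : Type*) [Field L] [Algebra (AdjoinRoot f) L] [IsFractionRing (AdjoinRoot f) L]
    (w : HeightOneSpectrum (AdjoinRoot f)) (hϖ0 : AdjoinRoot.mk f (C ϖ) ≠ 0)
    (hϖ : AdjoinRoot.mk f (C ϖ) ∈ w.asIdeal)
    (a b c g e : A[X]) (ha : AdjoinRoot.mk f a ∈ w.asIdeal) (hc : AdjoinRoot.mk f c ∈ w.asIdeal)
    (h : a * c = b ^ 2 - g * f + (C ϖ) ^ 2 * e) : AdjoinRoot.mk f g ∈ w.asIdeal := by
  classical
  by_contra hg
  have hϖA : ϖ ≠ 0 := by
    rintro rfl
    simp at hϖ0
  -- `b ∈ M`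
  have hb : AdjoinRoot.mk f b ∈ w.asIdeal := by
    have h1 : AdjoinRoot.mk f b ^ 2 ∈ w.asIdeal := by
      have h2 : b ^ 2 = a * c + g * f - (C ϖ) ^ 2 * e := by rw [h]; ring
      rw [← map_pow, h2, map_sub, map_add, map_mul, map_mul, map_mul, AdjoinRoot.mk_self,
        mul_zero, add_zero, map_pow]
      refine sub_mem (Ideal.mul_mem_right _ _ ha) (Ideal.mul_mem_right _ _ ?_)
      exact Ideal.pow_mem_of_mem _ hϖ 2 two_pos
    exact w.isPrime.mem_of_pow_mem 2 h1
  have hred : ∀ R : A[X], C ϖ ∣ R ↔ R.map ρ = 0 := C_dvd_iff_map_eq_zero ρ ϖ hker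
  have hsurj' : Function.Surjective (Polynomial.map ρ) := Polynomial.map_surjective ρ hsurj
  have hmem : ∀ R S : A[X], R.map ρ = S.map ρ → AdjoinRoot.mk f R ∈ w.asIdeal →
      AdjoinRoot.mk f S ∈ w.asIdeal := by
    intro R S h hR
    have h1 : C ϖ ∣ S - R := by
      rw [hred, Polynomial.map_sub, h, sub_self]
    obtain ⟨T, hT⟩ := h1
    have h2 : S = R + C ϖ * T := by rw [← hT]; ring
    rw [h2, map_add, map_mul]
    exact add_mem hR (Ideal.mul_mem_right _ _ hϖ)
  let I : Ideal k[X] :=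
    { carrier := {r | ∀ R : A[X], R.map ρ = r → AdjoinRoot.mk f R ∈ w.asIdeal}
      zero_mem' := by
        intro R hR
        rw [← hred] at hR
        obtain ⟨T, rfl⟩ := hR
        rw [map_mul]
        exact Ideal.mul_mem_right _ _ hϖ
      add_mem' := by
        intro a b ha hb R hR
        obtain ⟨A, rfl⟩ := hsurj' a
        have h1 : (R - A).map ρ = b := by
          rw [Polynomial.map_sub, hR]; ring
        have h2 : R = A + (R - A) := by ring
        rw [h2, map_add]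
        exact add_mem (ha A rfl) (hb _ h1)
      smul_mem' := by
        intro c a ha R hR
        obtain ⟨S, rfl⟩ := hsurj' c
        obtain ⟨A, rfl⟩ := hsurj' a
        refine hmem (S * A) R (by rw [hR, Polynomial.map_mul, smul_eq_mul]) ?_
        rw [map_mul]
        exact Ideal.mul_mem_left _ _ (ha A rfl) }
  have hI : ∀ R : A[X], R.map ρ ∈ I ↔ AdjoinRoot.mk f R ∈ w.asIdeal := by
    intro R
    constructor
    · intro h
      exact h R rfl
    · intro h S hS
      exact hmem R S hS.symm h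
  obtain ⟨G0, hG0⟩ : ∃ G : k[X], I = Ideal.span {G} := (IsPrincipalIdealRing.principal I).principal
  obtain ⟨G, rfl⟩ := hsurj' G0
  -- membership in `M`
  have hM : ∀ P : A[X], AdjoinRoot.mk f P ∈ w.asIdeal → ∃ α β : A[X], P = G * α + C ϖ * β := by
    intro P hP
    rw [← hI, hG0, Ideal.mem_span_singleton] at hP
    obtain ⟨r, hr⟩ := hP
    obtain ⟨α, rfl⟩ := hsurj' r
    rw [← Polynomial.map_mul] at hr
    have : C ϖ ∣ P - G * α := by
      rw [hred, Polynomial.map_sub, hr, sub_self]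
    obtain ⟨β, hβ⟩ := this
    exact ⟨α, β, by rw [← hβ]; ring⟩
  have hGM : AdjoinRoot.mk f G ∈ w.asIdeal := by
    rw [← hI, hG0]
    exact Ideal.mem_span_singleton_self _
  -- `G` is nonzero modulo `ϖ`
  have hGne : G.map ρ ≠ 0 := by
    intro hG00
    have hwmax : w.asIdeal.IsMaximal := w.isMaximal
    -- `X` or something is invertible mod `w`
    by_cases hX : AdjoinRoot.mk f X ∈ w.asIdeal
    · rw [← hI, hG0, hG00, Ideal.mem_span_singleton, zero_dvd_iff, Polynomial.map_X] at hX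
      exact X_ne_zero hX
    · obtain ⟨y, hy⟩ := hwmax.exists_inv hX
      obtain ⟨i, hi, hyi⟩ := hy
      obtain ⟨Y, rfl⟩ := AdjoinRoot.mk_surjective y
      have h1 : AdjoinRoot.mk f (Y * X - 1) ∈ w.asIdeal := by
        have : AdjoinRoot.mk f (Y * X - 1) = -i := by
          rw [map_sub, map_mul, map_one, ← hyi]; ring
        rw [this]; exact neg_mem hi
      rw [← hI, hG0, hG00, Ideal.mem_span_singleton, zero_dvd_iff, Polynomial.map_sub,
        Polynomial.map_mul, Polynomial.map_X, Polynomial.map_one, sub_eq_zero] at h1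
      have h2 := congrArg (fun p => Polynomial.eval 0 p) h1
      simp at h2
  obtain ⟨a1, a2, rfl⟩ := hM a ha
  obtain ⟨b1, b2, rfl⟩ := hM b hb
  obtain ⟨c1, c2, rfl⟩ := hM c hc
  have hfM : AdjoinRoot.mk f f ∈ w.asIdeal := by rw [AdjoinRoot.mk_self]; exact zero_mem _
  obtain ⟨f1, f2, hf12⟩ := hM f hfM
  obtain ⟨y, i, hi, hyi⟩ := w.isMaximal.exists_inv hg
  obtain ⟨Y, rfl⟩ := AdjoinRoot.mk_surjective y
  obtain ⟨m1, m2, hm⟩ := hM (Y * g - 1) (by
    have : AdjoinRoot.mk f (Y * g - 1) = -i := by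
      rw [map_sub, map_mul, map_one, ← hyi]; ring
    rw [this]; exact neg_mem hi)
  -- `f ∈ M²`
  have hgf : g * f = (G * b1 + C ϖ * b2) ^ 2 - (G * a1 + C ϖ * a2) * (G * c1 + C ϖ * c2)
      + (C ϖ) ^ 2 * e := by rw [h]; ring
  have hf2 : ∃ α β γ : A[X], f = (C ϖ) ^ 2 * α + (C ϖ) * G * β + G ^ 2 * γ := by
    have h1 : f = Y * (g * f) - (Y * g - 1) * f := by ring
    have h2 : (Y * g - 1) * f = (G * m1 + C ϖ * m2) * (G * f1 + C ϖ * f2) := by
      rw [hm]; conv_lhs => rw [hf12]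
    refine ⟨Y * (b2 ^ 2 - a2 * c2 + e) - m2 * f2,
      Y * (2 * b1 * b2 - a1 * c2 - a2 * c1) - (m1 * f2 + m2 * f1),
      Y * (b1 ^ 2 - a1 * c1) - m1 * f1, ?_⟩
    rw [h1, h2, hgf]
    ring
  obtain ⟨α, β, γ, hf⟩ := hf2
  have hCϖ : (C ϖ : A[X]) ≠ 0 := by rwa [Ne, C_eq_zero]
  have hρϖ : (C ϖ : A[X]).map ρ = 0 := by rw [← hred]
  obtain ⟨n, ⟨d, hd⟩, hnd⟩ := w.exists_primeCompl_mul_eq_or_mul_eq
    (K := L) (algebraMap _ L (AdjoinRoot.mk f G) / algebraMap _ L (AdjoinRoot.mk f (C ϖ)))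
  have hϖL : algebraMap _ L (AdjoinRoot.mk f (C ϖ)) ≠ 0 := by
    rw [Ne, FaithfulSMul.algebraMap_eq_zero_iff]; exact hϖ0
  obtain ⟨N, rfl⟩ := AdjoinRoot.mk_surjective n
  obtain ⟨D, rfl⟩ := AdjoinRoot.mk_surjective d
  have hd' : AdjoinRoot.mk f D ∉ w.asIdeal := hd
  rcases hnd with hnd | hnd
  · -- `G D = ϖ N`
    have h1 : AdjoinRoot.mk f (G * D) = AdjoinRoot.mk f (C ϖ * N) := by
      apply IsFractionRing.injective (AdjoinRoot f) L
      rw [map_mul, map_mul, map_mul, map_mul]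
      field_simp at hnd
      simpa using hnd
    rw [AdjoinRoot.mk_eq_mk] at h1
    obtain ⟨q, hq⟩ := h1
    have h2 : (G * D).map ρ = (G ^ 2 * γ * q).map ρ := by
      have : G * D = C ϖ * (N + ((C ϖ) * α + G * β) * q) + G ^ 2 * γ * q := by
        have h3 : G * D = C ϖ * N + f * q := by rw [← hq]; ring
        rw [h3, hf]; ring
      rw [this, Polynomial.map_add, Polynomial.map_mul, hρϖ, zero_mul, zero_add]
    have h3 : D.map ρ = (G * (γ * q)).map ρ := by
      apply mul_left_cancel₀ hGne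
      rw [← Polynomial.map_mul, h2, ← Polynomial.map_mul]
      congr 1; ring
    apply hd'
    apply hmem _ _ h3.symm
    rw [map_mul]
    exact Ideal.mul_mem_right _ _ hGM
  · -- `G N = ϖ D`
    have h1 : AdjoinRoot.mk f (G * N) = AdjoinRoot.mk f (C ϖ * D) := by
      apply IsFractionRing.injective (AdjoinRoot f) L
      rw [map_mul, map_mul, map_mul, map_mul]
      field_simp at hnd
      simpa using hnd
    rw [AdjoinRoot.mk_eq_mk] at h1
    obtain ⟨q, hq⟩ := h1
    have h2 : (G * N).map ρ = (G ^ 2 * γ * q).map ρ := by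
      have : G * N = C ϖ * (D + ((C ϖ) * α + G * β) * q) + G ^ 2 * γ * q := by
        have h3 : G * N = C ϖ * D + f * q := by rw [← hq]; ring
        rw [h3, hf]; ring
      rw [this, Polynomial.map_add, Polynomial.map_mul, hρϖ, zero_mul, zero_add]
    have h3 : N.map ρ = (G * (γ * q)).map ρ := by
      apply mul_left_cancel₀ hGne
      rw [← Polynomial.map_mul, h2, ← Polynomial.map_mul]
      congr 1; ring
    have h4 : C ϖ ∣ N - G * (γ * q) := by
      rw [hred, Polynomial.map_sub, h3, sub_self]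
    obtain ⟨δ, hδ⟩ := h4
    have hN : N = G * (γ * q) + C ϖ * δ := by rw [← hδ]; ring
    have h5 : D = δ * G - (C ϖ) * α * q - G * β * q := by
      apply mul_left_cancel₀ hCϖ
      have h6 : C ϖ * D = G * N - f * q := by rw [← hq]; ring
      rw [h6, hN, hf]; ring
    apply hd'
    rw [h5, map_sub, map_sub]
    refine sub_mem (sub_mem ?_ ?_) ?_
    · rw [map_mul]; exact Ideal.mul_mem_left _ _ hGM
    · rw [map_mul, map_mul]
      exact Ideal.mul_mem_right _ _ (Ideal.mul_mem_right _ _ hϖ)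
    · rw [map_mul, map_mul]
      exact Ideal.mul_mem_right _ _ (Ideal.mul_mem_right _ _ hGM)

end

end Pool.Agent.H94.TC
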