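import Pool.Agent.H94.TC.LocalInd
import Pool.Agent.H94.TC.Reg
import Pool.Agent.H94.TC.Comp
import Pool.Agent.H94.TC.Adic

/-!
The local lemma over `K_v`.
-/

namespace Pool.Agent.H94.TC

open Polynomial WithZero IsDedekindDomain HeightOneSpectrum

section

variable {A K L : Type*} [CommRing A] [IsDedekindDomain A] [Field K] [Algebra A K]
  [IsFractionRing A K] {f : A[X]} [IsDedekindDomain (AdjoinRoot f)]
  [Module.IsTorsionFree A (AdjoinRoot f)]
  [Field L] [Algebra K L] [Algebra A L] [IsScalarTower A K L]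
  [Algebra (AdjoinRoot f) L] [IsFractionRing (AdjoinRoot f) L] [IsScalarTower A (AdjoinRoot f) L]
  (v : HeightOneSpectrum A) (w : HeightOneSpectrum (AdjoinRoot f))
  [w.asIdeal.LiesOver v.asIdeal]

variable (K L) in
/-- Evaluation at `θ`, the class of `x`, in the completion `L_w`. -/
noncomputable def phi : (v.adicCompletion K)[X] →+* w.adicCompletion L :=
  eval₂RingHom (compMap K L v w)
    (algebraMap L (w.adicCompletion L) (algebraMap (AdjoinRoot f) L (AdjoinRoot.root f)))

variable (K L) in
/-- The restriction of `phi` to `O_v[x]`. -/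
noncomputable def phiInt : (v.adicCompletionIntegers K)[X] →+* w.adicCompletion L :=
  (phi K L v w).comp (mapRingHom (algebraMap (v.adicCompletionIntegers K) (v.adicCompletion K)))

theorem valued_algebraMap (x : L) :
    (Valued.v (algebraMap L (w.adicCompletion L) x) : ℤᵐ⁰) = w.valuation L x := by
  rw [algebraMap_adicCompletion]
  exact valuedAdicCompletion_eq_valuation' w x

theorem phi_map (Δ : K[X]) : phi K L v w (Δ.map (algebraMap K (v.adicCompletion K))) =
    algebraMap L (w.adicCompletion L)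
      (aeval (algebraMap (AdjoinRoot f) L (AdjoinRoot.root f)) Δ) := by
  rw [phi, coe_eval₂RingHom, eval₂_map, aeval_def, hom_eval₂]
  congr 1
  refine RingHom.ext fun x => ?_
  simp only [RingHom.coe_comp, Function.comp]
  exact compMap_coe L v w x

theorem phiInt_map (P : A[X]) :
    phiInt K L v w (P.map (algebraMap A (v.adicCompletionIntegers K))) =
    algebraMap L (w.adicCompletion L) (algebraMap (AdjoinRoot f) L (AdjoinRoot.mk f P)) := by
  have h1 : (P.map (algebraMap A (v.adicCompletionIntegers K))).map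
      (algebraMap (v.adicCompletionIntegers K) (v.adicCompletion K)) =
      (P.map (algebraMap A K)).map (algebraMap K (v.adicCompletion K)) := by
    rw [Polynomial.map_map, Polynomial.map_map]
    congr 1
  rw [phiInt, RingHom.coe_comp, Function.comp, coe_mapRingHom, h1, phi_map]
  congr 1
  rw [aeval_map_algebraMap, aeval_algebraMap_apply]
  rw [← AdjoinRoot.aeval_eq]

theorem valued_phiInt_le_one (P : (v.adicCompletionIntegers K)[X]) :
    (Valued.v (phiInt K L v w P) : ℤᵐ⁰) ≤ 1 := by
  induction P using Polynomial.induction_on' with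
  | add P1 P2 h1 h2 =>
    rw [map_add]
    exact (Valuation.map_add _ _ _).trans (max_le h1 h2)
  | monomial m a =>
    rw [phiInt, RingHom.coe_comp, Function.comp, coe_mapRingHom, Polynomial.map_monomial, phi,
      coe_eval₂RingHom, eval₂_monomial, map_mul, map_pow, valued_compMap, valued_algebraMap]
    refine mul_le_one' (pow_le_one' a.2 _) (pow_le_one' (w.valuation_le_one _) _)

variable (ϖ : A)

theorem phiInt_C : phiInt K L v w (C (algebraMap A (v.adicCompletionIntegers K) ϖ)) =
    algebraMap L (w.adicCompletion L) (algebraMap (AdjoinRoot f) L (AdjoinRoot.mk f (C ϖ))) := by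
  have h := phiInt_map (K := K) (L := L) v w (C ϖ)
  rwa [Polynomial.map_C] at h

theorem valued_phiInt_C (hϖ : ϖ ≠ 0) (hv : v.asIdeal = Ideal.span {ϖ}) :
    (Valued.v (phiInt K L v w (C (algebraMap A (v.adicCompletionIntegers K) ϖ))) : ℤᵐ⁰) =
      (exp (-1 : ℤ)) ^ (v.asIdeal.ramificationIdx' w.asIdeal) := by
  rw [phiInt, RingHom.coe_comp, Function.comp, coe_mapRingHom, Polynomial.map_C, phi,
      coe_eval₂RingHom, eval₂_C, valued_compMap]
  congr 1
  exact val_varpi (K := K) v ϖ hϖ hv

theorem local_base (hϖ : ϖ ≠ 0) (hv : v.asIdeal = Ideal.span {ϖ})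
    (P Q R g : (v.adicCompletionIntegers K)[X])
    (h : P * R = Q ^ 2 - g * f.map (algebraMap A (v.adicCompletionIntegers K)))
    (hP : (Valued.v (phiInt K L v w P) : ℤᵐ⁰) < 1)
    (hR : (Valued.v (phiInt K L v w R) : ℤᵐ⁰) < 1) :
    (Valued.v (phiInt K L v w g) : ℤᵐ⁰) < 1 := by
  classical
  have he : v.asIdeal.ramificationIdx' w.asIdeal ≠ 0 :=
    Ideal.IsDedekindDomain.ramificationIdx'_ne_zero_of_liesOver w.asIdeal v.ne_bot
  set p := C (algebraMap A (v.adicCompletionIntegers K) ϖ) with hp
  have hpv : (Valued.v (phiInt K L v w p) : ℤᵐ⁰) < 1 := by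
    rw [hp, valued_phiInt_C v w ϖ hϖ hv]
    refine pow_lt_one₀ (zero_le) ?_ he
    rw [← exp_zero, exp_lt_exp]; norm_num
  -- approximations
  have happ : ∀ P : (v.adicCompletionIntegers K)[X], ∃ (a : A[X]) (P' : (v.adicCompletionIntegers K)[X]),
      P = a.map (algebraMap A (v.adicCompletionIntegers K)) + p ^ 2 * P' := by
    intro P
    obtain ⟨a, P', hP'⟩ := exists_poly_approx (K := K) v ϖ hϖ hv 2 P
    exact ⟨a, P', by rw [hp, ← hP']; ring⟩
  have hlt : ∀ (a : A[X]) (P' : (v.adicCompletionIntegers K)[X]),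
      (Valued.v (phiInt K L v w (a.map (algebraMap A (v.adicCompletionIntegers K)) + p ^ 2 * P')) :
        ℤᵐ⁰) < 1 ↔ AdjoinRoot.mk f a ∈ w.asIdeal := by
    intro a P'
    have h1 : (Valued.v (phiInt K L v w (p ^ 2 * P')) : ℤᵐ⁰) < 1 := by
      rw [map_mul, map_mul, map_pow, map_pow]
      refine lt_of_le_of_lt (mul_le_of_le_one_right' (valued_phiInt_le_one v w P')) ?_
      exact pow_lt_one₀ (zero_le) hpv two_ne_zero
    have h2 : (Valued.v (phiInt K L v w (a.map (algebraMap A (v.adicCompletionIntegers K)))) :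
        ℤᵐ⁰) < 1 ↔ AdjoinRoot.mk f a ∈ w.asIdeal := by
      rw [phiInt_map, valued_algebraMap, valuation_lt_one_iff_mem]
    rw [← h2, map_add]
    constructor
    · intro h3
      have h4 : phiInt K L v w (a.map (algebraMap A (v.adicCompletionIntegers K))) =
        (phiInt K L v w (a.map (algebraMap A (v.adicCompletionIntegers K))) +
          phiInt K L v w (p ^ 2 * P')) - phiInt K L v w (p ^ 2 * P') := by ring
      rw [h4]
      exact lt_of_le_of_lt (Valuation.map_sub _ _ _) (max_lt h3 h1)
    · intro h3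
      exact lt_of_le_of_lt (Valuation.map_add _ _ _) (max_lt h3 h1)
  obtain ⟨a, P', rfl⟩ := happ P
  obtain ⟨b, Q', rfl⟩ := happ Q
  obtain ⟨c, R', rfl⟩ := happ R
  obtain ⟨g0, g', rfl⟩ := happ g
  rw [hlt] at hP hR ⊢
  -- the difference is divisible by `ϖ²`
  have hdvd : (C ϖ) ^ 2 ∣ a * c - (b ^ 2 - g0 * f) := by
    apply dvd_of_map_dvd (K := K) v ϖ hϖ hv
    rw [← hp]
    simp only [Polynomial.map_sub, Polynomial.map_mul, Polynomial.map_pow]
    set F := f.map (algebraMap A (v.adicCompletionIntegers K))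
    set a' := a.map (algebraMap A (v.adicCompletionIntegers K))
    set b' := b.map (algebraMap A (v.adicCompletionIntegers K))
    set c' := c.map (algebraMap A (v.adicCompletionIntegers K))
    set g0' := g0.map (algebraMap A (v.adicCompletionIntegers K))
    refine ⟨2 * b' * Q' + p ^ 2 * Q' ^ 2 - g' * F - (a' * R' + P' * c' + p ^ 2 * P' * R'), ?_⟩
    linear_combination h
  obtain ⟨e, he'⟩ := hdvd
  -- reduction mod `ϖ` on `A`
  have hmax : (Ideal.span {ϖ}).IsMaximal := by rw [← hv]; exact v.isMaximal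
  letI : Field (A ⧸ Ideal.span {ϖ}) := Ideal.Quotient.field _
  have hϖw : AdjoinRoot.mk f (C ϖ) ∈ w.asIdeal := by
    have h1 : ϖ ∈ v.asIdeal := by rw [hv]; exact Ideal.mem_span_singleton_self _
    rw [Ideal.LiesOver.over (p := v.asIdeal) (P := w.asIdeal)] at h1
    exact h1
  have hϖ0 : AdjoinRoot.mk f (C ϖ) ≠ 0 := by
    intro h0
    have : phiInt K L v w p = 0 := by rw [hp, phiInt_C, h0]; simp
    have h2 := valued_phiInt_C (K := K) (L := L) v w ϖ hϖ hv
    rw [← hp, this, map_zero] at h2
    exact (pow_ne_zero _ exp_ne_zero) h2.symm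
  exact reg_core (Ideal.Quotient.mk (Ideal.span {ϖ})) Ideal.Quotient.mk_surjective ϖ
    (fun x => by rw [Ideal.Quotient.eq_zero_iff_mem, Ideal.mem_span_singleton]) f L w hϖ0 hϖw
    a b c g0 e hP hR (by rw [← he']; ring)

/-- The local lemma, integral version. -/
theorem local_int (hϖ : ϖ ≠ 0) (hv : v.asIdeal = Ideal.span {ϖ})
    (N : ℕ) (P Q R : (v.adicCompletionIntegers K)[X])
    (hP0 : phiInt K L v w P ≠ 0)
    (hP : ¬ C (algebraMap A (v.adicCompletionIntegers K) ϖ) ∣ P)
    (h : P * R = Q ^ 2 - (C (algebraMap A (v.adicCompletionIntegers K) ϖ)) ^ (2 * N) *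
      f.map (algebraMap A (v.adicCompletionIntegers K))) :
    IsSquare (Valued.v (phiInt K L v w P) : ℤᵐ⁰) := by
  have he : v.asIdeal.ramificationIdx' w.asIdeal ≠ 0 :=
    Ideal.IsDedekindDomain.ramificationIdx'_ne_zero_of_liesOver w.asIdeal v.ne_bot
  have hpv : (Valued.v (phiInt K L v w (C (algebraMap A (v.adicCompletionIntegers K) ϖ))) :
      ℤᵐ⁰) < 1 := by
    rw [valued_phiInt_C v w ϖ hϖ hv]
    refine pow_lt_one₀ (zero_le) ?_ he
    rw [← exp_zero, exp_lt_exp]; norm_num
  refine local_ind Valued.v (phiInt K L v w) (algebraMap A (v.adicCompletionIntegers K) ϖ)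
    (prime_C_varpi (K := K) v ϖ hϖ hv) (valued_phiInt_le_one v w) ?_
    (f.map (algebraMap A (v.adicCompletionIntegers K))) ?_ ?_ ?_ N P Q R 1 hP0 hP ?_ ?_
  · intro h0
    have h2 := valued_phiInt_C (K := K) (L := L) v w ϖ hϖ hv
    rw [h0, map_zero] at h2
    exact (pow_ne_zero _ exp_ne_zero) h2.symm
  · rw [phiInt_map, AdjoinRoot.mk_self, map_zero, map_zero]
  · intro A' B' C' g hh h1 h2
    exact local_base v w ϖ hϖ hv A' B' C' g hh h1 h2
  · intro P' Q' hP' hQ'
    exact hval_of Valued.v (phiInt K L v w)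
      (IsLocalRing.residue (v.adicCompletionIntegers K)) IsLocalRing.residue_surjective
      (algebraMap A (v.adicCompletionIntegers K) ϖ)
      (residue_eq_zero_iff (K := K) v ϖ hϖ hv) (valued_phiInt_le_one v w) hpv P' Q' hP' hQ'
  · simp
  · rw [h]; ring

/-- Clearing denominators. -/
theorem exists_clear (hϖ : ϖ ≠ 0) (hv : v.asIdeal = Ideal.span {ϖ}) (P : (v.adicCompletion K)[X]) :
    ∃ n : ℕ, ∀ m : ℕ, n ≤ m → ∃ P' : (v.adicCompletionIntegers K)[X],
      P'.map (algebraMap (v.adicCompletionIntegers K) (v.adicCompletion K)) =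
      C ((algebraMap A (v.adicCompletionIntegers K) ϖ : v.adicCompletionIntegers K) :
        v.adicCompletion K) ^ m * P := by
  classical
  have hp1 := val_varpi (K := K) v ϖ hϖ hv
  set p := algebraMap A (v.adicCompletionIntegers K) ϖ with hp
  have hx : ∀ x : v.adicCompletion K, ∃ n : ℕ, ∀ m : ℕ, n ≤ m →
      (p : v.adicCompletion K) ^ m * x ∈ v.adicCompletionIntegers K := by
    intro x
    refine ⟨(log (Valued.v x : ℤᵐ⁰)).natAbs, fun m hm => ?_⟩
    rw [mem_adicCompletionIntegers, map_mul, map_pow, hp1, ← exp_nsmul]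
    by_cases hx : (Valued.v x : ℤᵐ⁰) = 0
    · rw [hx]; simp
    · rw [← exp_log hx, ← exp_add, ← exp_zero, exp_le_exp]
      simp only [smul_neg, nsmul_eq_mul, mul_one, log_exp]
      omega
  choose n hn using hx
  refine ⟨P.support.sup (fun i => n (P.coeff i)), fun m hm => ?_⟩
  refine ⟨∑ i ∈ P.support.attach, monomial i.1
    (⟨(p : v.adicCompletion K) ^ m * P.coeff i.1, hn _ m ((Finset.le_sup
      (f := fun i => n (P.coeff i)) i.2).trans hm)⟩ : v.adicCompletionIntegers K), ?_⟩
  rw [Polynomial.map_sum]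
  simp only [Polynomial.map_monomial]
  rw [← C_pow]
  conv_rhs => rw [P.as_sum_support, Finset.mul_sum, ← Finset.sum_attach]
  refine Finset.sum_congr rfl fun i _ => ?_
  rw [C_mul_monomial]
  rfl

/-- The local lemma: the parity of `w(A(θ))` depends only on `e_w`. -/
theorem local_main (hϖ : ϖ ≠ 0) (hv : v.asIdeal = Ideal.span {ϖ})
    (P : (v.adicCompletion K)[X]) (hP : P.Monic) :
    ∃ j : ℕ, ∀ (L : Type*) [Field L] [Algebra K L] [Algebra A L] [IsScalarTower A K L]
      [Algebra (AdjoinRoot f) L] [IsFractionRing (AdjoinRoot f) L]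
      [IsScalarTower A (AdjoinRoot f) L] (w : HeightOneSpectrum (AdjoinRoot f))
      [w.asIdeal.LiesOver v.asIdeal] (Q : (v.adicCompletion K)[X]),
      P ∣ Q ^ 2 - (f.map (algebraMap A K)).map (algebraMap K (v.adicCompletion K)) →
      phi K L v w P ≠ 0 →
      IsSquare ((Valued.v (phi K L v w P) : ℤᵐ⁰) *
        ((exp (-1 : ℤ)) ^ (v.asIdeal.ramificationIdx' w.asIdeal)) ^ j) := by
  classical
  obtain ⟨n0, hn0⟩ := exists_clear (K := K) v ϖ hϖ hv P
  have hex : ∃ j : ℕ, ∃ P' : (v.adicCompletionIntegers K)[X],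
      P'.map (algebraMap (v.adicCompletionIntegers K) (v.adicCompletion K)) =
      C ((algebraMap A (v.adicCompletionIntegers K) ϖ : v.adicCompletionIntegers K) :
        v.adicCompletion K) ^ j * P := ⟨n0, hn0 n0 le_rfl⟩
  refine ⟨Nat.find hex, ?_⟩
  intro L _ _ _ _ _ _ _ w _ Q hPQ hphi
  obtain ⟨P', hP'⟩ := Nat.find_spec hex
  set j := Nat.find hex with hj
  have hinj : Function.Injective (Polynomial.map
      (algebraMap (v.adicCompletionIntegers K) (v.adicCompletion K))) :=
    Polynomial.map_injective _ (FaithfulSMul.algebraMap_injective _ _)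
  have hp0 : ((algebraMap A (v.adicCompletionIntegers K) ϖ : v.adicCompletionIntegers K) :
        v.adicCompletion K) ≠ 0 := by
    intro h0
    have h2 := val_varpi (K := K) v ϖ hϖ hv
    rw [h0, map_zero] at h2
    exact exp_ne_zero h2.symm
  have hCp : (C (algebraMap A (v.adicCompletionIntegers K) ϖ)).map
      (algebraMap (v.adicCompletionIntegers K) (v.adicCompletion K)) =
      C ((algebraMap A (v.adicCompletionIntegers K) ϖ : v.adicCompletionIntegers K) :
        v.adicCompletion K) := by
    rw [Polynomial.map_C]; rfl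
  -- `P'` is not divisible by `ϖ`
  have hnd : ¬ C (algebraMap A (v.adicCompletionIntegers K) ϖ) ∣ P' := by
    rintro ⟨P1, hP1⟩
    have hP1' : C ((algebraMap A (v.adicCompletionIntegers K) ϖ : v.adicCompletionIntegers K) :
        v.adicCompletion K) * P1.map (algebraMap (v.adicCompletionIntegers K) (v.adicCompletion K))
        = C ((algebraMap A (v.adicCompletionIntegers K) ϖ : v.adicCompletionIntegers K) :
        v.adicCompletion K) ^ j * P := by
      rw [← hP', hP1, Polynomial.map_mul, hCp]
    rcases Nat.eq_zero_or_pos j with hj0 | hj0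
    · -- `P` monic
      rw [hj0, pow_zero, one_mul] at hP1'
      have h1 := congrArg (fun p => p.coeff P.natDegree) hP1'
      simp only [coeff_C_mul, coeff_natDegree, hP.leadingCoeff, coeff_map] at h1
      have h2 : (algebraMap A (v.adicCompletionIntegers K) ϖ) * P1.coeff P.natDegree = 1 := by
        apply Subtype.ext
        push_cast
        exact h1
      have h3 : IsUnit (algebraMap A (v.adicCompletionIntegers K) ϖ) :=
        IsUnit.of_mul_eq_one _ h2
      rw [adicCompletionIntegers.isUnit_iff_valued_eq_one, val_varpi (K := K) v ϖ hϖ hv] at h3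
      have h4 : exp (-1 : ℤ) = exp 0 := by rw [h3, exp_zero]
      rw [exp_inj] at h4
      omega
    · have h1 : ∃ P'' : (v.adicCompletionIntegers K)[X],
        P''.map (algebraMap (v.adicCompletionIntegers K) (v.adicCompletion K)) =
        C ((algebraMap A (v.adicCompletionIntegers K) ϖ : v.adicCompletionIntegers K) :
          v.adicCompletion K) ^ (j - 1) * P := by
        refine ⟨P1, ?_⟩
        have h5 : (C ((algebraMap A (v.adicCompletionIntegers K) ϖ : v.adicCompletionIntegers K) :
          v.adicCompletion K) : (v.adicCompletion K)[X]) ≠ 0 := by rwa [Ne, C_eq_zero]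
        apply mul_left_cancel₀ h5
        rw [hP1', ← mul_assoc, ← pow_succ']
        congr 2; omega
      have h2 := Nat.find_min' hex h1
      omega
  obtain ⟨R, hR⟩ := hPQ
  obtain ⟨n1, hn1⟩ := exists_clear (K := K) v ϖ hϖ hv Q
  obtain ⟨n2, hn2⟩ := exists_clear (K := K) v ϖ hϖ hv R
  set N := n1 + n2 + j with hN
  obtain ⟨Q', hQ'⟩ := hn1 N (by omega)
  obtain ⟨R', hR'⟩ := hn2 (2 * N - j) (by omega)
  have hmain : P' * R' = Q' ^ 2 - (C (algebraMap A (v.adicCompletionIntegers K) ϖ)) ^ (2 * N) *
      f.map (algebraMap A (v.adicCompletionIntegers K)) := by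
    apply hinj
    simp only [Polynomial.map_sub, Polynomial.map_mul, Polynomial.map_pow]
    rw [hP', hR', hQ', hCp, Polynomial.map_map]
    have h1 : f.map ((algebraMap (v.adicCompletionIntegers K) (v.adicCompletion K)).comp
        (algebraMap A (v.adicCompletionIntegers K))) =
        (f.map (algebraMap A K)).map (algebraMap K (v.adicCompletion K)) := by
      rw [Polynomial.map_map]
      rfl
    rw [h1]
    set c := C ((algebraMap A (v.adicCompletionIntegers K) ϖ : v.adicCompletionIntegers K) :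
        v.adicCompletion K)
    set F := (f.map (algebraMap A K)).map (algebraMap K (v.adicCompletion K))
    have h2 : c ^ j * P * (c ^ (2 * N - j) * R) = c ^ (2 * N) * (P * R) := by
      have : c ^ (2 * N) = c ^ j * c ^ (2 * N - j) := by
        rw [← pow_add]; congr 1; omega
      rw [this]; ring
    rw [h2, ← hR]
    ring
  have hphi' : phiInt K L v w P' = phi K L v w
      (C ((algebraMap A (v.adicCompletionIntegers K) ϖ : v.adicCompletionIntegers K) :
        v.adicCompletion K)) ^ j * phi K L v w P := by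
    rw [phiInt, RingHom.coe_comp, Function.comp, coe_mapRingHom, hP', map_mul, map_pow]
  have hphiC : (Valued.v (phi K L v w
      (C ((algebraMap A (v.adicCompletionIntegers K) ϖ : v.adicCompletionIntegers K) :
        v.adicCompletion K))) : ℤᵐ⁰) =
      (exp (-1 : ℤ)) ^ (v.asIdeal.ramificationIdx' w.asIdeal) := by
    rw [phi, coe_eval₂RingHom, eval₂_C, valued_compMap]
    congr 1
    exact val_varpi (K := K) v ϖ hϖ hv
  have hne : phiInt K L v w P' ≠ 0 := by
    rw [hphi']
    refine mul_ne_zero (pow_ne_zero _ ?_) hphi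
    intro h0
    rw [h0, map_zero] at hphiC
    exact (pow_ne_zero _ exp_ne_zero) hphiC.symm
  have := local_int v w ϖ hϖ hv N P' Q' R' hne hnd hmain
  rw [hphi', map_mul, map_pow, hphiC, mul_comm] at this
  exact this

end

end Pool.Agent.H94.TC
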