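import Mathlib

/-!
`K[x]/(f)` is the field of fractions of `A[x]/(f)`.
-/

namespace Pool.Agent.H94.TC

open Polynomial

section

variable {A : Type*} [CommRing A] [IsDedekindDomain A] (K : Type*) [Field K]
  [Algebra A K] [IsFractionRing A K] (f : A[X])

theorem isDedekind_adjoinRoot (hf : f.Monic) [IsDomain (AdjoinRoot f)]
    [IsIntegrallyClosed (AdjoinRoot f)] : IsDedekindDomain (AdjoinRoot f) := by
  have : Module.Finite A (AdjoinRoot f) := hf.finite_adjoinRoot
  have : Algebra.IsIntegral A (AdjoinRoot f) := inferInstance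
  have : IsNoetherianRing (AdjoinRoot f) := isNoetherian_of_tower A inferInstance
  have : Ring.DimensionLEOne (AdjoinRoot f) := Ring.DimensionLEOne.of_isIntegral A _
  exact {}

theorem torsionFree_adjoinRoot (hf : f.Monic) : Module.IsTorsionFree A (AdjoinRoot f) := by
  have : Module.Free A (AdjoinRoot f) := hf.free_adjoinRoot
  infer_instance

theorem irreducible_map (hf : f.Monic) [IsDomain (AdjoinRoot f)] :
    Irreducible (f.map (algebraMap A K)) := by
  have h1 : Prime f := by
    rw [← Ideal.span_singleton_prime hf.ne_zero, ← Ideal.Quotient.isDomain_iff_prime]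
    exact (inferInstance : IsDomain (AdjoinRoot f))
  exact (hf.irreducible_iff_irreducible_map_fraction_map).1 h1.irreducible

/-- the map `A[x]/(f) → K[x]/(f)` -/
noncomputable def toField : AdjoinRoot f →+* AdjoinRoot (f.map (algebraMap A K)) :=
  AdjoinRoot.map (algebraMap A K) f (f.map (algebraMap A K)) dvd_rfl

theorem toField_mk (P : A[X]) : toField K f (AdjoinRoot.mk f P) =
    AdjoinRoot.mk (f.map (algebraMap A K)) (P.map (algebraMap A K)) := by
  induction P using Polynomial.induction_on' with
  | add p q hp hq => rw [map_add, map_add, hp, hq, Polynomial.map_add, map_add]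
  | monomial n a =>
    rw [Polynomial.map_monomial, ← C_mul_X_pow_eq_monomial, ← C_mul_X_pow_eq_monomial]
    simp only [map_mul, map_pow, AdjoinRoot.mk_C, AdjoinRoot.mk_X]
    rw [toField, AdjoinRoot.map_of, AdjoinRoot.map_root]

theorem toField_injective (hf : f.Monic) : Function.Injective (toField K f) := by
  rw [injective_iff_map_eq_zero]
  intro x hx
  obtain ⟨P, rfl⟩ := AdjoinRoot.mk_surjective x
  rw [toField_mk, AdjoinRoot.mk_eq_zero] at hx
  rw [AdjoinRoot.mk_eq_zero]
  exact (map_dvd_map _ (IsFractionRing.injective A K) hf).1 hx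

theorem exists_clear_poly (P : K[X]) : ∃ (a : A) (Q : A[X]), a ≠ 0 ∧
    Q.map (algebraMap A K) = C (algebraMap A K a) * P := by
  obtain ⟨b, hb', hb⟩ := IsLocalization.integerNormalization_spec (nonZeroDivisors A) P
  refine ⟨b, IsLocalization.integerNormalization (nonZeroDivisors A) P,
    nonZeroDivisors.ne_zero hb', ?_⟩
  rw [hb, Algebra.smul_def]
  rfl

theorem isFractionRing_toField (hf : f.Monic) [IsDomain (AdjoinRoot f)] :
    letI : Fact (Irreducible (f.map (algebraMap A K))) := ⟨irreducible_map K f hf⟩
    letI := (toField K f).toAlgebra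
    IsFractionRing (AdjoinRoot f) (AdjoinRoot (f.map (algebraMap A K))) := by
  letI : Fact (Irreducible (f.map (algebraMap A K))) := ⟨irreducible_map K f hf⟩
  letI := (toField K f).toAlgebra
  haveI : FaithfulSMul (AdjoinRoot f) (AdjoinRoot (f.map (algebraMap A K))) := by
    rw [faithfulSMul_iff_algebraMap_injective]
    exact toField_injective K f hf
  refine IsFractionRing.of_field _ _ fun z => ?_
  obtain ⟨P, rfl⟩ := AdjoinRoot.mk_surjective z
  obtain ⟨a, Q, ha, hQ⟩ := exists_clear_poly (A := A) K P
  refine ⟨AdjoinRoot.mk f Q, AdjoinRoot.mk f (C a), ?_⟩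
  show AdjoinRoot.mk _ P = toField K f _ / toField K f _
  rw [toField_mk, toField_mk, hQ, Polynomial.map_C, map_mul]
  have hne : AdjoinRoot.mk (f.map (algebraMap A K)) (C (algebraMap A K a)) ≠ 0 := by
    rw [AdjoinRoot.mk_C]
    intro h
    rw [map_eq_zero] at h
    exact ha ((map_eq_zero_iff _ (IsFractionRing.injective A K)).1 h)
  rw [eq_div_iff hne, mul_comm]

end

end Pool.Agent.H94.TC
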