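import Mathlib

/-!
The global argument: an element whose valuations are even up to elements of the base.
-/

namespace Pool.Agent.H94.TC

open Polynomial WithZero IsDedekindDomain HeightOneSpectrum

section

variable {B : Type*} [CommRing B] [IsDedekindDomain B]

theorem exists_sq_ideal (J : Ideal B) (hJ : J ≠ ⊥)
    (h : ∀ w : HeightOneSpectrum B, Even (multiplicity w.asIdeal J)) :
    ∃ I : Ideal B, I ^ 2 = J ∧ I ≠ ⊥ := by
  classical
  have hfin : (Function.mulSupport fun w : HeightOneSpectrum B =>
      w.asIdeal ^ (multiplicity w.asIdeal J / 2)).Finite := by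
    refine (Ideal.finite_factors hJ).subset ?_
    intro w hw
    rw [Function.mem_mulSupport] at hw
    show w.asIdeal ∣ J
    by_contra hd
    apply hw
    rw [multiplicity_eq_zero.2 hd]
    simp
  refine ⟨∏ᶠ w : HeightOneSpectrum B, w.asIdeal ^ (multiplicity w.asIdeal J / 2), ?_, ?_⟩
  · rw [finprod_pow hfin]
    conv_rhs => rw [← Ideal.finprod_heightOneSpectrum_pow_multiplicity hJ]
    refine finprod_congr fun w => ?_
    rw [← pow_mul]
    congr 1
    obtain ⟨k, hk⟩ := h w
    omega
  · rw [finprod_eq_prod _ hfin]
    rw [← Ideal.zero_eq_bot, Finset.prod_ne_zero_iff]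
    intro w _
    exact pow_ne_zero _ w.ne_bot

theorem even_of_isSquare_exp {n : ℤ} (h : IsSquare (exp n : ℤᵐ⁰)) : Even n := by
  obtain ⟨r, hr⟩ := h
  have hr0 : r ≠ 0 := by
    rintro rfl
    simp at hr
  rw [← exp_log hr0, ← exp_add, exp_inj] at hr
  exact ⟨_, hr⟩

/-- class group argument -/
theorem exists_unit_sq (hcl : ∀ c : ClassGroup B, c ^ 2 = 1 → c = 1) (b : B) (hb : b ≠ 0)
    (h : ∀ w : HeightOneSpectrum B, Even (multiplicity w.asIdeal (Ideal.span {b}))) :
    ∃ (u : Bˣ) (g : B), b = u * g ^ 2 := by
  classical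
  obtain ⟨I, hI, hI0⟩ := exists_sq_ideal (Ideal.span {b}) (by simpa using hb) h
  have hI0' : I ∈ nonZeroDivisors (Ideal B) := mem_nonZeroDivisors_of_ne_zero hI0
  have h1 : (ClassGroup.mk0 ⟨I, hI0'⟩) ^ 2 = 1 := by
    rw [← map_pow, ClassGroup.mk0_eq_one_iff]
    show Submodule.IsPrincipal (I ^ 2)
    rw [hI]
    exact ⟨b, rfl⟩
  have h2 := hcl _ h1
  rw [ClassGroup.mk0_eq_one_iff] at h2
  obtain ⟨g, hg⟩ := h2.principal
  have hg' : I = Ideal.span {g} := hg
  rw [hg', Ideal.span_singleton_pow, Ideal.span_singleton_eq_span_singleton] at hI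
  obtain ⟨u, hu⟩ := hI
  exact ⟨u, g, by rw [← hu, mul_comm]⟩

end

section

variable {A : Type*} [CommRing A] [IsDomain A] [IsPrincipalIdealRing A]
  {B : Type*} [CommRing B] [IsDedekindDomain B] [Algebra A B] [Module.IsTorsionFree A B]
  [Algebra.IsIntegral A B]

theorem exists_gen (v : HeightOneSpectrum A) : ∃ ϖ : A, ϖ ≠ 0 ∧ v.asIdeal = Ideal.span {ϖ} := by
  obtain ⟨ϖ, hϖ⟩ := (IsPrincipalIdealRing.principal v.asIdeal).principal
  refine ⟨ϖ, ?_, hϖ⟩
  rintro rfl
  apply v.ne_bot
  rw [hϖ]
  exact Ideal.span_singleton_eq_bot.2 rfl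

theorem exists_twist (b : B) (hb : b ≠ 0)
    (h : ∀ v : HeightOneSpectrum A, ∃ j : ℕ, ∀ w : HeightOneSpectrum B,
      w.asIdeal.LiesOver v.asIdeal →
        Even (multiplicity w.asIdeal (Ideal.span {b}) +
          v.asIdeal.ramificationIdx' w.asIdeal * j)) :
    ∃ d : A, Squarefree d ∧ ∀ w : HeightOneSpectrum B,
      Even (multiplicity w.asIdeal (Ideal.span {algebraMap A B d * b})) := by
  classical
  -- the prime of `A` below a prime of `B`
  have hbelow : ∀ w : HeightOneSpectrum B, ∃ v : HeightOneSpectrum A,
      w.asIdeal.LiesOver v.asIdeal := by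
    intro w
    have hne : w.asIdeal.under A ≠ ⊥ := by
      intro h0
      exact w.ne_bot (Ideal.eq_bot_of_comap_eq_bot (R := A) h0)
    have hp : (w.asIdeal.under A).IsPrime := Ideal.IsPrime.under A w.asIdeal
    exact ⟨⟨w.asIdeal.under A, hp, hne⟩, ⟨rfl⟩⟩
  choose below hbelow' using hbelow
  have hbelow_unique : ∀ (v : HeightOneSpectrum A) (w : HeightOneSpectrum B),
      w.asIdeal.LiesOver v.asIdeal → v = below w := by
    intro v w hvw
    have h1 := hvw.over
    have h2 := (hbelow' w).over
    exact HeightOneSpectrum.ext (h1.trans h2.symm)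
  choose gen hgen0 hgen using (fun v : HeightOneSpectrum A => exists_gen v)
  -- the finite set of bad primes
  have hfin : {w : HeightOneSpectrum B | w.asIdeal ∣ Ideal.span {b}}.Finite :=
    Ideal.finite_factors (by simpa using hb)
  set T : Finset (HeightOneSpectrum A) :=
    (hfin.toFinset.image below).filter (fun v => ∃ w : HeightOneSpectrum B,
      below w = v ∧ ¬ Even (multiplicity w.asIdeal (Ideal.span {b}))) with hT
  have hTmem : ∀ w : HeightOneSpectrum B, ¬ Even (multiplicity w.asIdeal (Ideal.span {b})) →
      below w ∈ T := by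
    intro w hw
    rw [hT, Finset.mem_filter]
    refine ⟨?_, w, rfl, hw⟩
    apply Finset.mem_image_of_mem
    rw [Set.Finite.mem_toFinset]
    show w.asIdeal ∣ Ideal.span {b}
    by_contra hd
    rw [multiplicity_eq_zero.2 hd] at hw
    exact hw (by simp)
  have hassoc : ∀ v v' : HeightOneSpectrum A, gen v ∣ gen v' → v = v' := by
    intro v v' hd
    have h1 : v'.asIdeal ≤ v.asIdeal := by
      rw [hgen, hgen]
      exact Ideal.span_singleton_le_span_singleton.2 hd
    have h2 := v'.isMaximal.eq_of_le v.isPrime.ne_top h1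
    exact (HeightOneSpectrum.ext h2).symm
  have hprime : ∀ v, Prime (gen v) := by
    intro v
    rw [← Ideal.span_singleton_prime (hgen0 v), ← hgen]
    exact v.isPrime
  have hb' : Ideal.span {b} ≠ (0 : Ideal B) := by simpa using hb
  refine ⟨∏ v ∈ T, gen v, ?_, ?_⟩
  · refine Finset.squarefree_prod_of_pairwise_isCoprime ?_ ?_
    · intro v _ v' _ hvv'
      rw [Function.onFun]
      refine (hprime v).irreducible.isRelPrime_iff_not_dvd.2 ?_
      intro hd
      exact hvv' (hassoc v v' hd)
    · intro v _; exact (hprime v).squarefree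
  · intro w
    have hgw : ∀ v : HeightOneSpectrum A, v ≠ below w →
        multiplicity w.asIdeal (Ideal.span {algebraMap A B (gen v)}) = 0 := by
      intro v hv
      rw [multiplicity_eq_zero]
      intro hd
      apply hv
      have h1 : algebraMap A B (gen v) ∈ w.asIdeal :=
        Ideal.le_of_dvd hd (Ideal.mem_span_singleton_self _)
      have h2 : gen v ∈ (below w).asIdeal := by
        rw [(hbelow' w).over]; exact h1
      rw [hgen, Ideal.mem_span_singleton] at h2
      exact (hassoc _ _ h2).symm
    have hgw' : multiplicity w.asIdeal (Ideal.span {algebraMap A B (gen (below w))}) =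
        (below w).asIdeal.ramificationIdx' w.asIdeal := by
      have : w.asIdeal.LiesOver (below w).asIdeal := hbelow' w
      have h1 := intValuation_liesOver (B := B) (below w) w (gen (below w))
      rw [(below w).intValuation_singleton (hgen0 _) (hgen _)] at h1
      rw [intValuation_eq_exp_neg_multiplicity w (by
        rw [Ne, FaithfulSMul.algebraMap_eq_zero_iff]; exact hgen0 _), ← exp_nsmul, exp_inj] at h1
      simp only [nsmul_eq_mul, mul_neg, mul_one, neg_inj] at h1
      exact_mod_cast h1.symm
    have hmul : ∀ x y : B, x ≠ 0 → y ≠ 0 → multiplicity w.asIdeal (Ideal.span {x * y}) =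
        multiplicity w.asIdeal (Ideal.span {x}) + multiplicity w.asIdeal (Ideal.span {y}) := by
      intro x y hx hy
      rw [← Ideal.span_singleton_mul_span_singleton]
      apply multiplicity_mul (w.prime)
      apply FiniteMultiplicity.of_prime_left w.prime
      exact mul_ne_zero (by simpa using hx) (by simpa using hy)
    have hprod : ∀ S : Finset (HeightOneSpectrum A),
        multiplicity w.asIdeal (Ideal.span {algebraMap A B (∏ v ∈ S, gen v)}) =
        if below w ∈ S then (below w).asIdeal.ramificationIdx' w.asIdeal else 0 := by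
      intro S
      induction S using Finset.induction_on with
      | empty =>
        simp only [Finset.prod_empty, map_one, Finset.notMem_empty, if_false]
        rw [multiplicity_eq_zero]
        intro hd
        have := Ideal.le_of_dvd hd (Ideal.mem_span_singleton_self _)
        exact w.isPrime.ne_top ((Ideal.eq_top_iff_one _).2 this)
      | insert v S hvS ih =>
        rw [Finset.prod_insert hvS, map_mul, hmul, ih]
        · by_cases hv : v = below w
          · subst hv
            rw [hgw', if_neg hvS, if_pos (Finset.mem_insert_self _ _), add_zero]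
          · rw [hgw v hv, zero_add]
            simp only [Finset.mem_insert]
            by_cases h : below w ∈ S
            · rw [if_pos h, if_pos (Or.inr h)]
            · rw [if_neg h, if_neg]
              rintro (h' | h')
              · exact hv h'.symm
              · exact h h'
        · rw [Ne, FaithfulSMul.algebraMap_eq_zero_iff]; exact hgen0 _
        · rw [Ne, FaithfulSMul.algebraMap_eq_zero_iff]
          exact Finset.prod_ne_zero_iff.2 fun v _ => hgen0 v
    rw [hmul _ _ (by
      rw [Ne, FaithfulSMul.algebraMap_eq_zero_iff]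
      exact Finset.prod_ne_zero_iff.2 fun v _ => hgen0 v) hb, hprod]
    obtain ⟨j, hj⟩ := h (below w)
    by_cases hw : below w ∈ T
    · rw [if_pos hw]
      rw [hT, Finset.mem_filter] at hw
      obtain ⟨_, w0, hw0, hodd⟩ := hw
      have h1 := hj w0 (hw0 ▸ hbelow' w0)
      have h2 := hj w (hbelow' w)
      have hjodd : Odd j := by
        rw [Nat.even_add] at h1
        have h3 : ¬ Even ((below w).asIdeal.ramificationIdx' w0.asIdeal * j) := by tauto
        rw [Nat.even_mul] at h3
        rw [← Nat.not_even_iff_odd]
        tauto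
      rw [Nat.even_add] at h2 ⊢
      rw [Nat.even_mul] at h2
      have h4 : ¬ Even j := Nat.not_even_iff_odd.2 hjodd
      tauto
    · rw [if_neg hw, zero_add]
      by_contra hne
      exact hw (hTmem w hne)

end

end Pool.Agent.H94.TC
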