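import Mathlib

/-!
# The norm is a resultant

For a monic polynomial `f` over a field `K` the norm of `g(θ)` in `K[x]/(f)` is the
resultant `Res(f, g)`.
-/

namespace Pool.Agent.H94.TC

open Polynomial

theorem det_aeval_of_splits {E : Type*} [Field E] {ι : Type*} [Fintype ι] [DecidableEq ι]
    (M : Matrix ι ι E) (g : E[X]) (hg : g.Splits) :
    (aeval M g).det = resultant M.charpoly g := by
  have hn : M.charpoly.natDegree = Fintype.card ι := M.charpoly_natDegree_eq_dim
  have hdet : ∀ a : E, (M - algebraMap E (Matrix ι ι E) a).det =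
      (-1) ^ Fintype.card ι * M.charpoly.eval a := by
    intro a
    rw [Matrix.eval_charpoly]
    have : M - algebraMap E (Matrix ι ι E) a = -(Matrix.scalar ι a - M) := by
      rw [neg_sub]; rfl
    rw [this, Matrix.det_neg]
  have hprod : ∀ s : Multiset E, (aeval M (s.map (fun a => X - C a)).prod).det =
      ((-1) ^ Fintype.card ι) ^ Multiset.card s * (s.map (fun a => M.charpoly.eval a)).prod := by
    intro s
    induction s using Multiset.induction_on with
    | empty => simp
    | cons a s ih =>
      rw [Multiset.map_cons, Multiset.prod_cons, map_mul, Matrix.det_mul, ih, map_sub, aeval_X,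
        aeval_C, hdet, Multiset.card_cons, Multiset.map_cons, Multiset.prod_cons, pow_succ]
      ring
  have hg' : g = C g.leadingCoeff * (g.roots.map (fun a => X - C a)).prod :=
    hg.eq_prod_roots
  have hcard : Multiset.card g.roots = g.natDegree := hg.natDegree_eq_card_roots.symm
  conv_lhs => rw [hg']
  rw [map_mul, Matrix.det_mul, hprod, hcard, aeval_C]
  rw [resultant_comm, resultant_eq_prod_eval g M.charpoly _ le_rfl hg, hn]
  have h1 : (algebraMap E (Matrix ι ι E) g.leadingCoeff).det = g.leadingCoeff ^ Fintype.card ι := by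
    rw [Matrix.algebraMap_eq_diagonal, Matrix.det_diagonal]
    simp
  rw [h1, pow_mul]
  ring

theorem det_aeval {K : Type*} [Field K] {ι : Type*} [Fintype ι] [DecidableEq ι]
    (M : Matrix ι ι K) (g : K[X]) : (aeval M g).det = resultant M.charpoly g := by
  set E := AlgebraicClosure K
  apply (algebraMap K E).injective
  rw [RingHom.map_det]
  have h1 : (algebraMap K E).mapMatrix (aeval M g) =
      aeval ((algebraMap K E).mapMatrix M) (g.map (algebraMap K E)) := by
    rw [aeval_def, aeval_def, eval₂_map, hom_eval₂]
    congr 1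
    ext a i j
    simp [Matrix.algebraMap_eq_diagonal, Matrix.diagonal_apply]
    split_ifs <;> simp
  rw [h1, det_aeval_of_splits _ _ (IsAlgClosed.splits _)]
  have h2 : ((algebraMap K E).mapMatrix M).charpoly = M.charpoly.map (algebraMap K E) := by
    rw [RingHom.mapMatrix_apply, Matrix.charpoly_map]
  rw [h2, natDegree_map, natDegree_map, resultant_map_map]

theorem norm_eq_resultant {K : Type*} [Field K] (f : K[X]) (hf : f.Monic) (g : K[X]) :
    Algebra.norm K (AdjoinRoot.mk f g) = resultant f g := by
  classical
  set pb := AdjoinRoot.powerBasis hf.ne_zero with hpb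
  have h1 : AdjoinRoot.mk f g = aeval pb.gen g := by
    rw [hpb, AdjoinRoot.powerBasis_gen, AdjoinRoot.aeval_eq]
  rw [Algebra.norm_eq_matrix_det pb.basis, h1, ← Polynomial.aeval_algHom_apply, det_aeval,
    charpoly_leftMulMatrix, hpb, AdjoinRoot.minpoly_powerBasis_gen_of_monic hf]

end Pool.Agent.H94.TC
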