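import Pool.Agent.H94.TC.Main
import Pool.Agent.H94.TC.NormRes

/-!
The final form over `K = F(t)`.
-/

namespace Pool.Agent.H94.TC

open Polynomial IsDedekindDomain

section

variable {A K : Type*} [CommRing A] [IsDomain A] [IsPrincipalIdealRing A] [Field K] [Algebra A K]
  [IsFractionRing A K]

theorem final_abs (f : A[X]) (hf : f.Monic) (hodd : Odd f.natDegree)
    [IsDomain (AdjoinRoot f)] [IsIntegrallyClosed (AdjoinRoot f)]
    (hcl : ∀ c : ClassGroup (AdjoinRoot f), c ^ 2 = 1 → c = 1) (Δ : K[X])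
    (hΔ : IsCoprime Δ (f.map (algebraMap A K)))
    (hN : IsSquare (Algebra.norm K (AdjoinRoot.mk (f.map (algebraMap A K)) Δ)))
    (hloc : ∀ v : HeightOneSpectrum A, LocIm f v Δ) :
    ∃ (u : (AdjoinRoot f)ˣ) (z : AdjoinRoot (f.map (algebraMap A K))),
      AdjoinRoot.mk (f.map (algebraMap A K)) Δ = toField K f u * z ^ 2 := by
  letI : Fact (Irreducible (f.map (algebraMap A K))) := ⟨irreducible_map K f hf⟩
  letI := (toField K f).toAlgebra
  haveI : IsFractionRing (AdjoinRoot f) (AdjoinRoot (f.map (algebraMap A K))) :=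
    isFractionRing_toField K f hf
  haveI := isDedekind_adjoinRoot f hf
  haveI := torsionFree_adjoinRoot f hf
  haveI : Module.Finite A (AdjoinRoot f) := hf.finite_adjoinRoot
  haveI : IsScalarTower A (AdjoinRoot f) (AdjoinRoot (f.map (algebraMap A K))) := by
    refine IsScalarTower.of_algebraMap_eq fun x => ?_
    show _ = toField K f _
    have h1 : algebraMap A (AdjoinRoot f) x = AdjoinRoot.mk f (C x) := rfl
    rw [h1, toField_mk, Polynomial.map_C]
    rfl
  have hroot : algebraMap (AdjoinRoot f) (AdjoinRoot (f.map (algebraMap A K)))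
      (AdjoinRoot.root f) = AdjoinRoot.root (f.map (algebraMap A K)) := by
    show toField K f _ = _
    rw [toField, AdjoinRoot.map_root]
  have haev : aeval (algebraMap (AdjoinRoot f) (AdjoinRoot (f.map (algebraMap A K)))
      (AdjoinRoot.root f)) Δ = AdjoinRoot.mk (f.map (algebraMap A K)) Δ := by
    rw [hroot, AdjoinRoot.aeval_eq]
  have hne : AdjoinRoot.mk (f.map (algebraMap A K)) Δ ≠ 0 := by
    intro h0
    obtain ⟨a, b, hab⟩ := hΔ
    have := congrArg (AdjoinRoot.mk (f.map (algebraMap A K))) hab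
    rw [map_add, map_mul, map_mul, h0, AdjoinRoot.mk_self, mul_zero, mul_zero, add_zero,
      map_one] at this
    exact zero_ne_one this
  obtain ⟨u, z, huz⟩ := main_abs (L := AdjoinRoot (f.map (algebraMap A K))) hodd hf hcl Δ
    (by rw [haev]; exact hne) (by rw [haev]; exact hN) hloc
  rw [haev] at huz
  exact ⟨u, z, huz⟩

/-- a Mumford pair over `K` satisfies the local conditions everywhere -/
theorem locIm_of_global (f : A[X]) (v : HeightOneSpectrum A) (P Q : K[X]) (hP : P.Monic)
    (hcop : IsCoprime P (f.map (algebraMap A K))) (hPQ : P ∣ Q ^ 2 - f.map (algebraMap A K)) :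
    LocIm f v ((-1) ^ P.natDegree * P) := by
  refine ⟨P.map (algebraMap K (v.adicCompletion K)), Q.map (algebraMap K (v.adicCompletion K)), 1,
    hP.map _, hcop.map (mapRingHom (algebraMap K (v.adicCompletion K))), ?_, ?_⟩
  · have := Polynomial.map_dvd (algebraMap K (v.adicCompletion K)) hPQ
    rwa [Polynomial.map_sub, Polynomial.map_pow] at this
  · rw [natDegree_map, Polynomial.map_mul, Polynomial.map_pow, Polynomial.map_neg,
      Polynomial.map_one, one_pow, mul_one, sub_self]
    exact dvd_zero _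

theorem norm_mumford (g : K[X]) (hg : g.Monic) (P Q : K[X]) (hP : P.Monic)
    (hPQ : P ∣ Q ^ 2 - g) :
    IsSquare (Algebra.norm K (AdjoinRoot.mk g ((-1) ^ P.natDegree * P))) := by
  have h1 : AdjoinRoot.mk P g = (AdjoinRoot.mk P Q) ^ 2 := by
    rw [← map_pow, eq_comm, AdjoinRoot.mk_eq_mk]
    exact hPQ
  have h2 := norm_eq_resultant P hP g
  rw [h1, map_pow] at h2
  have h3 : ((-1 : K[X]) ^ P.natDegree * P) = C ((-1) ^ P.natDegree) * P := by
    rw [C_pow, C_neg, C_1]
  rw [h3, norm_eq_resultant g hg]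
  have hne : ((-1 : K) ^ P.natDegree) ≠ 0 := pow_ne_zero _ (neg_ne_zero.2 one_ne_zero)
  rw [natDegree_C_mul hne, resultant_C_mul_right, resultant_comm g P, ← h2, ← pow_mul,
    mul_comm g.natDegree, ← mul_assoc, ← pow_add, ← two_mul, pow_mul, neg_one_sq, one_pow, one_mul]
  exact ⟨_, sq _⟩

end

end Pool.Agent.H94.TC
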