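import Mathlib

/-!
The residual valuation ring property used in the local induction.
-/

namespace Pool.Agent.H94.TC

open Polynomial WithZero

section

variable {O M : Type*} [CommRing O] [Field M]

theorem C_dvd_iff_map_eq_zero {k : Type*} [Field k] (ρ : O →+* k)
    (ϖ : O) (hker : ∀ x, ρ x = 0 ↔ ϖ ∣ x) (P : O[X]) : C ϖ ∣ P ↔ P.map ρ = 0 := by
  rw [C_dvd_iff_dvd_coeff]
  constructor
  · intro h
    ext i
    rw [coeff_map, coeff_zero]
    exact (hker _).2 (h i)
  · intro h i
    rw [← hker, ← coeff_map, h, coeff_zero]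

theorem hval_of (w : Valuation M ℤᵐ⁰) (φ : O[X] →+* M) {k : Type*} [Field k] (ρ : O →+* k)
    (hsurj : Function.Surjective ρ) (ϖ : O) (hker : ∀ x, ρ x = 0 ↔ ϖ ∣ x)
    (hle : ∀ P, w (φ P) ≤ 1) (hϖ1 : w (φ (C ϖ)) < 1) (P Q : O[X])
    (hP : ¬ C ϖ ∣ P) (hQ : ¬ C ϖ ∣ Q) :
      ∃ u T : O[X], w (φ u) = 1 ∧ (C ϖ ∣ u * Q + T * P ∨ C ϖ ∣ u * P + T * Q) := by
  classical
  -- it suffices to work modulo `ϖ`
  have hred : ∀ R : O[X], C ϖ ∣ R ↔ R.map ρ = 0 := C_dvd_iff_map_eq_zero ρ ϖ hker
  rw [hred] at hP hQ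
  have hsurj' : Function.Surjective (Polynomial.map ρ) := Polynomial.map_surjective ρ hsurj
  -- the ideal of elements of valuation `< 1`
  have hmem : ∀ R S : O[X], R.map ρ = S.map ρ → w (φ R) < 1 → w (φ S) < 1 := by
    intro R S h hR
    have h1 : C ϖ ∣ S - R := by
      rw [hred, Polynomial.map_sub, h, sub_self]
    obtain ⟨T, hT⟩ := h1
    have h2 : S = R + C ϖ * T := by rw [← hT]; ring
    rw [h2, map_add]
    refine lt_of_le_of_lt (w.map_add _ _) (max_lt hR ?_)
    rw [map_mul, map_mul]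
    exact lt_of_le_of_lt (mul_le_of_le_one_right' (hle T)) hϖ1
  let I : Ideal k[X] :=
    { carrier := {r | ∀ R : O[X], R.map ρ = r → w (φ R) < 1}
      zero_mem' := by
        intro R hR
        rw [← hred] at hR
        obtain ⟨T, rfl⟩ := hR
        rw [map_mul, map_mul]
        exact lt_of_le_of_lt (mul_le_of_le_one_right' (hle T)) hϖ1
      add_mem' := by
        intro a b ha hb R hR
        obtain ⟨A, rfl⟩ := hsurj' a
        have h1 : (R - A).map ρ = b := by
          rw [Polynomial.map_sub, hR]; ring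
        have h2 : R = A + (R - A) := by ring
        rw [h2, map_add]
        exact lt_of_le_of_lt (w.map_add _ _) (max_lt (ha A rfl) (hb _ h1))
      smul_mem' := by
        intro c a ha R hR
        obtain ⟨S, rfl⟩ := hsurj' c
        obtain ⟨A, rfl⟩ := hsurj' a
        refine hmem (S * A) R (by rw [hR, Polynomial.map_mul, smul_eq_mul]) ?_
        rw [map_mul, map_mul]
        exact lt_of_le_of_lt (mul_le_of_le_one_left' (hle S)) (ha A rfl) }
  have hI : ∀ R : O[X], R.map ρ ∈ I ↔ w (φ R) < 1 := by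
    intro R
    constructor
    · intro h
      exact h R rfl
    · intro h S hS
      exact hmem R S hS.symm h
  have hIne : (1 : k[X]) ∉ I := by
    intro h
    have := h 1 (by simp)
    simp at this
  have hnot : ∀ R : O[X], R.map ρ ∉ I → w (φ R) = 1 := by
    intro R h
    rw [hI] at h
    exact le_antisymm (hle R) (not_lt.1 h)
  -- generator
  obtain ⟨G, hG⟩ : ∃ G : k[X], I = Ideal.span {G} := (IsPrincipalIdealRing.principal I).principal
  by_cases hG0 : G = 0
  · -- `I = 0`
    have h1 : P.map ρ ∉ I := by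
      rw [hG, hG0, Ideal.mem_span_singleton, zero_dvd_iff]
      exact hP
    refine ⟨P, -Q, hnot P h1, Or.inl ?_⟩
    have : P * Q + -Q * P = 0 := by ring
    rw [this]; exact dvd_zero _
  have hGu : ¬ IsUnit G := by
    intro h
    apply hIne
    rw [hG, Ideal.span_singleton_eq_top.2 h]
    trivial
  have hfin : ∀ {R : k[X]}, R ≠ 0 → FiniteMultiplicity G R := by
    intro R hR
    exact FiniteMultiplicity.of_not_isUnit hGu hR
  obtain ⟨p', hp1, hp2⟩ := (hfin hP).exists_eq_pow_mul_and_not_dvd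
  obtain ⟨q', hq1, hq2⟩ := (hfin hQ).exists_eq_pow_mul_and_not_dvd
  set a := multiplicity G (P.map ρ)
  set b := multiplicity G (Q.map ρ)
  obtain ⟨p, rfl⟩ := hsurj' p'
  obtain ⟨q, rfl⟩ := hsurj' q'
  obtain ⟨g, rfl⟩ := hsurj' G
  have hp3 : w (φ p) = 1 := by
    apply hnot
    rw [hG, Ideal.mem_span_singleton]
    exact hp2
  have hq3 : w (φ q) = 1 := by
    apply hnot
    rw [hG, Ideal.mem_span_singleton]
    exact hq2
  rcases le_total a b with hab | hab
  · refine ⟨p, -(g ^ (b - a) * q), hp3, Or.inl ?_⟩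
    rw [hred]
    simp only [Polynomial.map_add, Polynomial.map_mul, Polynomial.map_neg, Polynomial.map_pow]
    rw [hp1, hq1]
    have : (g.map ρ) ^ b = (g.map ρ) ^ (b - a) * (g.map ρ) ^ a := by
      rw [← pow_add]; congr 1; omega
    rw [this]; ring
  · refine ⟨q, -(g ^ (a - b) * p), hq3, Or.inr ?_⟩
    rw [hred]
    simp only [Polynomial.map_add, Polynomial.map_mul, Polynomial.map_neg, Polynomial.map_pow]
    rw [hp1, hq1]
    have : (g.map ρ) ^ a = (g.map ρ) ^ (a - b) * (g.map ρ) ^ b := by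
      rw [← pow_add]; congr 1; omega
    rw [this]; ring

end

end Pool.Agent.H94.TC
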