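import Pool.Agent.H94.TC.MainPar

/-!
At a prime of the base with only one prime above it, the valuation of an element of square norm
is even (the degree being odd).
-/

namespace Pool.Agent.H94.TC

open Polynomial WithZero IsDedekindDomain HeightOneSpectrum

section

variable {A K : Type*} [CommRing A] [IsDomain A] [IsPrincipalIdealRing A] [Field K] [Algebra A K]
  [IsFractionRing A K]

theorem not_dvd_norm {B : Type*} [CommRing B] [Algebra A B]
    [Module.Free A B] [Module.Finite A B] (ϖ : A) (hϖ : Prime ϖ) (b : B)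
    (hb : IsCoprime (Ideal.span {b}) (Ideal.span {algebraMap A B ϖ})) :
    ¬ ϖ ∣ Algebra.norm A b := by
  rw [Ideal.isCoprime_span_singleton_iff] at hb
  obtain ⟨y, c, hyc⟩ := hb
  have h1 : y * b = 1 + ϖ • (-c) := by
    rw [Algebra.smul_def, ← hyc]; ring
  obtain ⟨r, hr⟩ := Algebra.norm_one_add_smul ϖ (-c)
  have h2 := congrArg (Algebra.norm A) h1
  rw [map_mul, hr] at h2
  intro hd
  apply hϖ.not_isUnit
  apply isUnit_of_dvd_one
  have h3 : (1 : A) = Algebra.norm A y * Algebra.norm A b -
      ϖ * (Algebra.trace A B (-c) + r * ϖ) := by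
    rw [h2]; ring
  rw [h3]
  exact dvd_sub (hd.mul_left _) (Dvd.intro _ rfl)

variable {L : Type*} {f : A[X]} [IsDedekindDomain (AdjoinRoot f)]
  [Module.IsTorsionFree A (AdjoinRoot f)] [Module.Finite A (AdjoinRoot f)]
  [Field L] [Algebra K L] [Algebra A L] [IsScalarTower A K L]
  [Algebra (AdjoinRoot f) L] [IsFractionRing (AdjoinRoot f) L] [IsScalarTower A (AdjoinRoot f) L]

theorem inert_parity (hf : f.Monic) (hodd : Odd f.natDegree) (v : HeightOneSpectrum A) (ϖ : A)
    (hϖ0 : ϖ ≠ 0) (hv : v.asIdeal = Ideal.span {ϖ})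
    (hns : ∀ w w' : HeightOneSpectrum (AdjoinRoot f), algebraMap A (AdjoinRoot f) ϖ ∈ w.asIdeal →
      algebraMap A (AdjoinRoot f) ϖ ∈ w'.asIdeal → w = w') (δ : L) (hδ : δ ≠ 0)
    (hN : IsSquare (Algebra.norm K δ)) :
    ∃ j : ℕ, ∀ (w : HeightOneSpectrum (AdjoinRoot f)), w.asIdeal.LiesOver v.asIdeal →
      IsSquare (w.valuation L δ *
        ((exp (-1 : ℤ)) ^ (v.asIdeal.ramificationIdx' w.asIdeal)) ^ j) := by
  classical
  refine ⟨0, fun w hw => ?_⟩
  rw [pow_zero, mul_one]
  have hfree : Module.Free A (AdjoinRoot f) := hf.free_adjoinRoot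
  have hϖ : Prime ϖ := by
    rw [← Ideal.span_singleton_prime hϖ0, ← hv]; exact v.isPrime
  set π := algebraMap A (AdjoinRoot f) ϖ with hπ
  have hπ0 : π ≠ 0 := by
    rw [hπ, Ne, FaithfulSMul.algebraMap_eq_zero_iff]; exact hϖ0
  obtain ⟨x, y, hy, hxy⟩ := IsFractionRing.div_surjective (A := AdjoinRoot f) δ
  have hy0 : y ≠ 0 := nonZeroDivisors.ne_zero hy
  have hyL : algebraMap (AdjoinRoot f) L y ≠ 0 := by
    rw [Ne, FaithfulSMul.algebraMap_eq_zero_iff]; exact hy0
  have hx0 : x ≠ 0 := by
    rintro rfl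
    rw [map_zero, zero_div] at hxy
    exact hδ hxy.symm
  have hb : algebraMap (AdjoinRoot f) L (x * y) = δ * (algebraMap (AdjoinRoot f) L y) ^ 2 := by
    rw [← hxy, map_mul]
    field_simp
  have hb0 : x * y ≠ 0 := mul_ne_zero hx0 hy0
  set b := x * y with hbdef
  -- the prime `w` is the only one above `v`
  have hπw : π ∈ w.asIdeal := by
    have h4 : ϖ ∈ v.asIdeal := by rw [hv]; exact Ideal.mem_span_singleton_self _
    rw [hw.over] at h4
    exact h4
  have hspan0 : Ideal.span {π} ≠ ⊥ := by rw [Ne, Ideal.span_singleton_eq_bot]; exact hπ0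
  set e := multiplicity w.asIdeal (Ideal.span {π}) with he
  have hwπ : w.asIdeal ^ e = Ideal.span {π} := by
    have h1 := Ideal.finprod_heightOneSpectrum_pow_multiplicity hspan0
    rw [finprod_eq_single _ w] at h1
    · exact h1
    · intro w' hw'
      rw [multiplicity_eq_zero.2, pow_zero]
      intro hd
      exact hw' (hns w' w (Ideal.le_of_dvd hd (Ideal.mem_span_singleton_self _)) hπw)
  have hvalπ : w.intValuation π = exp (-(e : ℤ)) := by
    rw [intValuation_eq_exp_neg_multiplicity w hπ0]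
  set m := multiplicity w.asIdeal (Ideal.span {b}) with hm'
  have hvalb : w.intValuation b = exp (-(m : ℤ)) := by
    rw [intValuation_eq_exp_neg_multiplicity w hb0]
  -- `b ^ e = π ^ m u`
  obtain ⟨u, hu⟩ : π ^ m ∣ b ^ e := by
    rw [← Ideal.span_singleton_le_span_singleton, ← Ideal.span_singleton_pow,
      ← Ideal.span_singleton_pow, ← hwπ, ← pow_mul, mul_comm e m, pow_mul]
    refine Ideal.pow_right_mono ?_ e
    exact Ideal.le_of_dvd (pow_multiplicity_dvd _ _)
  have hvalu : w.intValuation u = 1 := by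
    have h1 := congrArg w.intValuation hu
    rw [map_mul, map_pow, map_pow, hvalb, hvalπ, ← exp_nsmul, ← exp_nsmul] at h1
    have h2 : e • (-(m : ℤ)) = m • (-(e : ℤ)) := by
      simp only [nsmul_eq_mul]; ring
    rw [h2] at h1
    exact (mul_eq_left₀ exp_ne_zero).1 h1.symm
  have hcop : IsCoprime (Ideal.span {u}) (Ideal.span {π}) := by
    rw [← hwπ]
    apply IsCoprime.pow_right
    rw [Ideal.isCoprime_iff_sup_eq]
    have h1 : u ∉ w.asIdeal := intValuation_eq_one_iff.1 hvalu
    have h2 : w.asIdeal < Ideal.span {u} ⊔ w.asIdeal := by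
      refine lt_of_le_of_ne le_sup_right fun h3 => h1 ?_
      rw [h3]
      exact (le_sup_left : Ideal.span {u} ≤ _) (Ideal.mem_span_singleton_self _)
    exact w.isMaximal.out.2 _ h2
  -- the norm
  have hfin : Module.finrank K L = f.natDegree := by
    rw [IsFractionRing.finrank_eq A K (AdjoinRoot f) L]
    exact finrank_quotient_span_eq_natDegree' hf
  have hnorm : ∀ z : AdjoinRoot f, Algebra.norm K (algebraMap (AdjoinRoot f) L z) =
      algebraMap A K (Algebra.norm A z) := by
    intro z
    exact Algebra.norm_localization A (nonZeroDivisors A) z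
  have hNb : IsSquare (Algebra.norm K (algebraMap (AdjoinRoot f) L b)) := by
    rw [hb, map_mul, map_pow]
    exact hN.mul ⟨_, sq _⟩
  have hNbe : Algebra.norm K (algebraMap (AdjoinRoot f) L b) ^ e =
      algebraMap A K (ϖ ^ (m * f.natDegree) * Algebra.norm A u) := by
    have h10 : algebraMap (AdjoinRoot f) L (π ^ m) = algebraMap K L ((algebraMap A K ϖ) ^ m) := by
      rw [map_pow, hπ, ← IsScalarTower.algebraMap_apply A (AdjoinRoot f) L, map_pow,
        ← IsScalarTower.algebraMap_apply A K L]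
    rw [← map_pow, ← map_pow, hu, map_mul (algebraMap (AdjoinRoot f) L), h10,
      map_mul (Algebra.norm K), hnorm u, Algebra.norm_algebraMap, hfin, ← pow_mul, map_mul, map_pow]
  obtain ⟨s, hs⟩ := hNb.pow e
  rw [hNbe] at hs
  have h7 := congrArg (v.valuation K) hs
  rw [map_mul (v.valuation K), valuation_of_algebraMap, map_mul, map_pow,
    v.intValuation_singleton hϖ0 hv] at h7
  have h8 : v.intValuation (Algebra.norm A u) = 1 := by
    rw [intValuation_eq_one_iff, hv, Ideal.mem_span_singleton]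
    exact not_dvd_norm ϖ hϖ u hcop
  rw [h8, mul_one, ← exp_nsmul] at h7
  have h9 : Even (m * f.natDegree) := by
    have := even_of_isSquare_exp ⟨_, h7⟩
    have h11 : ((m * f.natDegree) • (-1 : ℤ)) = -((m * f.natDegree : ℕ) : ℤ) := by
      simp only [nsmul_eq_mul]; push_cast; ring
    rw [h11, even_neg] at this
    exact_mod_cast this
  have hm : Even m := by
    rw [Nat.even_mul] at h9
    rcases h9 with h9 | h9
    · exact h9
    · exact absurd h9 (Nat.not_even_iff_odd.2 hodd)
  obtain ⟨k, hk⟩ := hm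
  have hval : w.valuation L δ * (w.valuation L (algebraMap (AdjoinRoot f) L y)) ^ 2 =
      exp (-(m : ℤ)) := by
    rw [← hvalb]
    have h12 : w.valuation L (algebraMap (AdjoinRoot f) L b) = w.intValuation b :=
      w.valuation_of_algebraMap (K := L) b
    rw [hb, map_mul, map_pow] at h12
    exact h12
  have hy1 : w.valuation L (algebraMap (AdjoinRoot f) L y) ≠ 0 := by
    rw [Valuation.ne_zero_iff]; exact hyL
  refine ⟨exp (-(k : ℤ)) / w.valuation L (algebraMap (AdjoinRoot f) L y), ?_⟩
  rw [div_mul_div_comm, eq_div_iff (mul_ne_zero hy1 hy1), ← sq, hval, ← exp_add, exp_inj, hk]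
  push_cast; ring

end

end Pool.Agent.H94.TC
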