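import Mathlib

/-!
The local induction: parity of the valuation of `A(θ)` for a Mumford pair `(A, B)`.
-/

namespace Pool.Agent.H94.TC

open Polynomial WithZero

section

variable {O M : Type*} [CommRing O] [IsDomain O] [Field M]

/-- The induction. `w (φ P) ≤ 1` for all `P`; `C ϖ` is prime in `O[X]`. -/
theorem local_ind (w : Valuation M ℤᵐ⁰) (φ : O[X] →+* M) (ϖ : O) (hϖ : Prime (C ϖ : O[X]))
    (hle : ∀ P, w (φ P) ≤ 1) (hϖ0 : φ (C ϖ) ≠ 0) (f : O[X]) (hf : φ f = 0)
    (hbase : ∀ A B C g : O[X], A * C = B ^ 2 - g * f → w (φ A) < 1 → w (φ C) < 1 → w (φ g) < 1)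
    (hval : ∀ P Q : O[X], ¬ C ϖ ∣ P → ¬ C ϖ ∣ Q →
      ∃ u T : O[X], w (φ u) = 1 ∧ (C ϖ ∣ u * Q + T * P ∨ C ϖ ∣ u * P + T * Q)) :
    ∀ (N : ℕ) (A B D g : O[X]), φ A ≠ 0 → ¬ C ϖ ∣ A → w (φ g) = 1 →
      A * D = B ^ 2 - (C ϖ) ^ (2 * N) * g * f → IsSquare (w (φ A)) := by
  intro N
  induction N with
  | zero =>
    intro A B D g hA _ hg h
    rcases lt_or_eq_of_le (hle A) with h1 | h1
    · have hD : ¬ w (φ D) < 1 := by
        intro hD
        have := hbase A B D g (by simpa using h) h1 hD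
        exact absurd hg this.ne
      have hD1 : w (φ D) = 1 := le_antisymm (hle D) (not_lt.1 hD)
      have h2 : φ A * φ D = φ B ^ 2 := by
        rw [← map_mul, h]; simp [hf]
      have h3 := congrArg w h2
      rw [map_mul, hD1, mul_one, map_pow] at h3
      exact ⟨w (φ B), by rw [h3, sq]⟩
    · exact ⟨1, by rw [h1, one_mul]⟩
  | succ N ih =>
    -- the case `C ϖ ∣ D`
    have key : ∀ (A B D g : O[X]), φ A ≠ 0 → ¬ C ϖ ∣ A → w (φ g) = 1 →
        A * D = B ^ 2 - (C ϖ) ^ (2 * (N + 1)) * g * f → C ϖ ∣ B → IsSquare (w (φ A)) := by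
      intro A B D g hA hA' hg h hB
      obtain ⟨B1, rfl⟩ := hB
      have h0 : A * D = (C ϖ) * ((C ϖ) * (B1 ^ 2 - (C ϖ) ^ (2 * N) * g * f)) := by
        rw [h]; ring
      obtain ⟨D1, rfl⟩ := (hϖ.dvd_or_dvd (Dvd.intro _ h0.symm)).resolve_left hA'
      have h1 : A * D1 = (C ϖ) * (B1 ^ 2 - (C ϖ) ^ (2 * N) * g * f) := by
        apply mul_left_cancel₀ hϖ.ne_zero
        rw [← h0]; ring
      obtain ⟨D2, rfl⟩ := (hϖ.dvd_or_dvd (Dvd.intro _ h1.symm)).resolve_left hA'
      have h2 : A * D2 = B1 ^ 2 - (C ϖ) ^ (2 * N) * g * f := by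
        apply mul_left_cancel₀ hϖ.ne_zero
        rw [← h1]; ring
      exact ih A B1 D2 g hA hA' hg h2
    -- the case where `uB + TA` is divisible by `ϖ`
    have key2 : ∀ (A B D g u T : O[X]), φ A ≠ 0 → ¬ C ϖ ∣ A → w (φ g) = 1 → w (φ u) = 1 →
        A * D = B ^ 2 - (C ϖ) ^ (2 * (N + 1)) * g * f → C ϖ ∣ u * B + T * A →
        IsSquare (w (φ A)) := by
      intro A B D g u T hA hA' hg hu h hB
      refine key A (u * B + T * A) (u ^ 2 * D + 2 * u * T * B + T ^ 2 * A) (u ^ 2 * g) hA hA' ?_ ?_ hB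
      · simp [hg, hu]
      · have : A * (u ^ 2 * D + 2 * u * T * B + T ^ 2 * A) =
            u ^ 2 * (A * D) + 2 * u * T * A * B + T ^ 2 * A ^ 2 := by ring
        rw [this, h]; ring
    intro A B D g hA hA' hg h
    by_cases hB : C ϖ ∣ B
    · exact key A B D g hA hA' hg h hB
    -- so `D` is not divisible by `ϖ`
    have hADB : C ϖ ∣ A * D - B ^ 2 := by
      rw [h]
      refine ⟨-((C ϖ) ^ (2 * N + 1) * g * f), ?_⟩
      ring
    have hD : ¬ C ϖ ∣ D := by
      intro hD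
      have : C ϖ ∣ B ^ 2 := by
        have h3 : B ^ 2 = A * D - (A * D - B ^ 2) := by ring
        rw [h3]
        exact dvd_sub (Dvd.dvd.mul_left hD A) hADB
      exact hB (hϖ.dvd_of_dvd_pow this)
    obtain ⟨u, T, hu, h1 | h1⟩ := hval A B hA' hB
    · exact key2 A B D g u T hA hA' hg hu h h1
    · -- `uA + TB` divisible; replace `(B, D)` to have `φ D ≠ 0`
      have hmain : ∀ (B D : O[X]), A * D = B ^ 2 - (C ϖ) ^ (2 * (N + 1)) * g * f →
          ¬ C ϖ ∣ B → ¬ C ϖ ∣ D → C ϖ ∣ u * A + T * B → φ D ≠ 0 → IsSquare (w (φ A)) := by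
        intro B D h hB hD h1 hD0
        have hADB : C ϖ ∣ A * D - B ^ 2 := by
          rw [h]
          refine ⟨-((C ϖ) ^ (2 * N + 1) * g * f), ?_⟩
          ring
        have h2 : C ϖ ∣ B * (u * B + T * D) := by
          have : B * (u * B + T * D) = D * (u * A + T * B) - u * (A * D - B ^ 2) := by ring
          rw [this]
          exact dvd_sub (Dvd.dvd.mul_left h1 D) (Dvd.dvd.mul_left hADB u)
        have h3 : C ϖ ∣ u * B + T * D := (hϖ.dvd_or_dvd h2).resolve_left hB
        have h4 : IsSquare (w (φ D)) :=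
          key2 D B A g u T hD0 hD hg hu (by rw [mul_comm D A, h]) h3
        obtain ⟨s, hs⟩ := h4
        have h5 : φ A * φ D = φ B ^ 2 := by
          rw [← map_mul, h]; simp [hf]
        have h6 := congrArg w h5
        rw [map_mul, map_pow, hs] at h6
        have hs0 : s ≠ 0 := by
          rintro rfl
          simp at hs
          exact hD0 hs
        refine ⟨w (φ B) / s, ?_⟩
        rw [div_mul_div_comm, ← sq (w (φ B)), ← h6, mul_div_assoc,
          div_self (mul_ne_zero hs0 hs0), mul_one]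
      by_cases hD0 : φ D = 0
      · have hB0 : φ B = 0 := by
          have h5 : φ A * φ D = φ B ^ 2 := by
            rw [← map_mul, h]; simp [hf]
          rw [hD0, mul_zero] at h5
          exact pow_eq_zero_iff (two_ne_zero) |>.1 h5.symm
        refine hmain (B + C ϖ * A) (D + 2 * C ϖ * B + (C ϖ) ^ 2 * A) ?_ ?_ ?_ ?_ ?_
        · have : A * (D + 2 * C ϖ * B + (C ϖ) ^ 2 * A) =
            A * D + 2 * C ϖ * A * B + (C ϖ) ^ 2 * A ^ 2 := by ring
          rw [this, h]; ring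
        · intro h7
          exact hB ((dvd_add_left (Dvd.intro _ rfl)).1 h7)
        · intro h7
          have h8 : D + 2 * C ϖ * B + (C ϖ) ^ 2 * A = D + C ϖ * (2 * B + C ϖ * A) := by ring
          rw [h8] at h7
          exact hD ((dvd_add_left (Dvd.intro _ rfl)).1 h7)
        · have h8 : u * A + T * (B + C ϖ * A) = (u * A + T * B) + C ϖ * (T * A) := by ring
          rw [h8]
          exact dvd_add h1 (Dvd.intro _ rfl)
        · simp only [map_add, map_mul, map_pow, hD0, hB0, mul_zero, zero_add]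
          exact mul_ne_zero (pow_ne_zero _ hϖ0) hA
      · exact hmain B D h hB hD h1 hD0

end

end Pool.Agent.H94.TC
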