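import Pool.Agent.H94.TC.Local

/-!
The local lemma over `K_v` for the twisted equation `y² = c f(x)`, `c` a unit at `v`.
-/

namespace Pool.Agent.H94.TC

open Polynomial WithZero IsDedekindDomain HeightOneSpectrum

section

variable {A K L : Type*} [CommRing A] [IsDedekindDomain A] [Field K] [Algebra A K]
  [IsFractionRing A K] {f : A[X]} [IsDedekindDomain (AdjoinRoot f)]
  [Module.IsTorsionFree A (AdjoinRoot f)]
  [Field L] [Algebra K L] [Algebra A L] [IsScalarTower A K L]
  [Algebra (AdjoinRoot f) L] [IsFractionRing (AdjoinRoot f) L] [IsScalarTower A (AdjoinRoot f) L]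
  (v : HeightOneSpectrum A) (w : HeightOneSpectrum (AdjoinRoot f))
  [w.asIdeal.LiesOver v.asIdeal]
  (ϖ : A)

/-- The local lemma, integral version. -/
theorem local_int_tw (hϖ : ϖ ≠ 0) (hv : v.asIdeal = Ideal.span {ϖ})
    (N : ℕ) (c : v.adicCompletionIntegers K) (hc : IsUnit c)
    (P Q R : (v.adicCompletionIntegers K)[X])
    (hP0 : phiInt K L v w P ≠ 0)
    (hP : ¬ C (algebraMap A (v.adicCompletionIntegers K) ϖ) ∣ P)
    (h : P * R = Q ^ 2 - (C (algebraMap A (v.adicCompletionIntegers K) ϖ)) ^ (2 * N) * C c *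
      f.map (algebraMap A (v.adicCompletionIntegers K))) :
    IsSquare (Valued.v (phiInt K L v w P) : ℤᵐ⁰) := by
  have he : v.asIdeal.ramificationIdx' w.asIdeal ≠ 0 :=
    Ideal.IsDedekindDomain.ramificationIdx'_ne_zero_of_liesOver w.asIdeal v.ne_bot
  have hpv : (Valued.v (phiInt K L v w (C (algebraMap A (v.adicCompletionIntegers K) ϖ))) :
      ℤᵐ⁰) < 1 := by
    rw [valued_phiInt_C v w ϖ hϖ hv]
    refine pow_lt_one₀ (zero_le) ?_ he
    rw [← exp_zero, exp_lt_exp]; norm_num
  refine local_ind Valued.v (phiInt K L v w) (algebraMap A (v.adicCompletionIntegers K) ϖ)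
    (prime_C_varpi (K := K) v ϖ hϖ hv) (valued_phiInt_le_one v w) ?_
    (f.map (algebraMap A (v.adicCompletionIntegers K))) ?_ ?_ ?_ N P Q R (C c) hP0 hP ?_ ?_
  · intro h0
    have h2 := valued_phiInt_C (K := K) (L := L) v w ϖ hϖ hv
    rw [h0, map_zero] at h2
    exact (pow_ne_zero _ exp_ne_zero) h2.symm
  · rw [phiInt_map, AdjoinRoot.mk_self, map_zero, map_zero]
  · intro A' B' C' g hh h1 h2
    exact local_base v w ϖ hϖ hv A' B' C' g hh h1 h2
  · intro P' Q' hP' hQ'
    exact hval_of Valued.v (phiInt K L v w)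
      (IsLocalRing.residue (v.adicCompletionIntegers K)) IsLocalRing.residue_surjective
      (algebraMap A (v.adicCompletionIntegers K) ϖ)
      (residue_eq_zero_iff (K := K) v ϖ hϖ hv) (valued_phiInt_le_one v w) hpv P' Q' hP' hQ'
  · obtain ⟨d, hd⟩ := hc.exists_right_inv
    have h1 : (Valued.v (phiInt K L v w (C c)) : ℤᵐ⁰) * Valued.v (phiInt K L v w (C d)) = 1 := by
      rw [← map_mul, ← map_mul, ← C_mul, hd, C_1, map_one, map_one]
    have h2 := valued_phiInt_le_one (L := L) v w (C c)
    have h3 := valued_phiInt_le_one (L := L) v w (C d)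
    refine le_antisymm h2 ?_
    rw [← h1]
    exact mul_le_of_le_one_right' h3
  · rw [h]

/-- The local lemma: the parity of `w(A(θ))` depends only on `e_w`. -/
theorem local_main_tw (hϖ : ϖ ≠ 0) (hv : v.asIdeal = Ideal.span {ϖ})
    (c0 : v.adicCompletionIntegers K) (hc0 : IsUnit c0)
    (P : (v.adicCompletion K)[X]) (hP : P.Monic) :
    ∃ j : ℕ, ∀ (L : Type*) [Field L] [Algebra K L] [Algebra A L] [IsScalarTower A K L]
      [Algebra (AdjoinRoot f) L] [IsFractionRing (AdjoinRoot f) L]
      [IsScalarTower A (AdjoinRoot f) L] (w : HeightOneSpectrum (AdjoinRoot f))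
      [w.asIdeal.LiesOver v.asIdeal] (Q : (v.adicCompletion K)[X]),
      P ∣ Q ^ 2 - C (c0 : v.adicCompletion K) *
        (f.map (algebraMap A K)).map (algebraMap K (v.adicCompletion K)) →
      phi K L v w P ≠ 0 →
      IsSquare ((Valued.v (phi K L v w P) : ℤᵐ⁰) *
        ((exp (-1 : ℤ)) ^ (v.asIdeal.ramificationIdx' w.asIdeal)) ^ j) := by
  classical
  obtain ⟨n0, hn0⟩ := exists_clear (K := K) v ϖ hϖ hv P
  have hex : ∃ j : ℕ, ∃ P' : (v.adicCompletionIntegers K)[X],
      P'.map (algebraMap (v.adicCompletionIntegers K) (v.adicCompletion K)) =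
      C ((algebraMap A (v.adicCompletionIntegers K) ϖ : v.adicCompletionIntegers K) :
        v.adicCompletion K) ^ j * P := ⟨n0, hn0 n0 le_rfl⟩
  refine ⟨Nat.find hex, ?_⟩
  intro L _ _ _ _ _ _ _ w _ Q hPQ hphi
  obtain ⟨P', hP'⟩ := Nat.find_spec hex
  set j := Nat.find hex with hj
  have hinj : Function.Injective (Polynomial.map
      (algebraMap (v.adicCompletionIntegers K) (v.adicCompletion K))) :=
    Polynomial.map_injective _ (FaithfulSMul.algebraMap_injective _ _)
  have hp0 : ((algebraMap A (v.adicCompletionIntegers K) ϖ : v.adicCompletionIntegers K) :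
        v.adicCompletion K) ≠ 0 := by
    intro h0
    have h2 := val_varpi (K := K) v ϖ hϖ hv
    rw [h0, map_zero] at h2
    exact exp_ne_zero h2.symm
  have hCp : (C (algebraMap A (v.adicCompletionIntegers K) ϖ)).map
      (algebraMap (v.adicCompletionIntegers K) (v.adicCompletion K)) =
      C ((algebraMap A (v.adicCompletionIntegers K) ϖ : v.adicCompletionIntegers K) :
        v.adicCompletion K) := by
    rw [Polynomial.map_C]; rfl
  -- `P'` is not divisible by `ϖ`
  have hnd : ¬ C (algebraMap A (v.adicCompletionIntegers K) ϖ) ∣ P' := by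
    rintro ⟨P1, hP1⟩
    have hP1' : C ((algebraMap A (v.adicCompletionIntegers K) ϖ : v.adicCompletionIntegers K) :
        v.adicCompletion K) * P1.map (algebraMap (v.adicCompletionIntegers K) (v.adicCompletion K))
        = C ((algebraMap A (v.adicCompletionIntegers K) ϖ : v.adicCompletionIntegers K) :
        v.adicCompletion K) ^ j * P := by
      rw [← hP', hP1, Polynomial.map_mul, hCp]
    rcases Nat.eq_zero_or_pos j with hj0 | hj0
    · -- `P` monic
      rw [hj0, pow_zero, one_mul] at hP1'
      have h1 := congrArg (fun p => p.coeff P.natDegree) hP1'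
      simp only [coeff_C_mul, coeff_natDegree, hP.leadingCoeff, coeff_map] at h1
      have h2 : (algebraMap A (v.adicCompletionIntegers K) ϖ) * P1.coeff P.natDegree = 1 := by
        apply Subtype.ext
        push_cast
        exact h1
      have h3 : IsUnit (algebraMap A (v.adicCompletionIntegers K) ϖ) :=
        IsUnit.of_mul_eq_one _ h2
      rw [adicCompletionIntegers.isUnit_iff_valued_eq_one, val_varpi (K := K) v ϖ hϖ hv] at h3
      have h4 : exp (-1 : ℤ) = exp 0 := by rw [h3, exp_zero]
      rw [exp_inj] at h4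
      omega
    · have h1 : ∃ P'' : (v.adicCompletionIntegers K)[X],
        P''.map (algebraMap (v.adicCompletionIntegers K) (v.adicCompletion K)) =
        C ((algebraMap A (v.adicCompletionIntegers K) ϖ : v.adicCompletionIntegers K) :
          v.adicCompletion K) ^ (j - 1) * P := by
        refine ⟨P1, ?_⟩
        have h5 : (C ((algebraMap A (v.adicCompletionIntegers K) ϖ : v.adicCompletionIntegers K) :
          v.adicCompletion K) : (v.adicCompletion K)[X]) ≠ 0 := by rwa [Ne, C_eq_zero]
        apply mul_left_cancel₀ h5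
        rw [hP1', ← mul_assoc, ← pow_succ']
        congr 2; omega
      have h2 := Nat.find_min' hex h1
      omega
  obtain ⟨R, hR⟩ := hPQ
  obtain ⟨n1, hn1⟩ := exists_clear (K := K) v ϖ hϖ hv Q
  obtain ⟨n2, hn2⟩ := exists_clear (K := K) v ϖ hϖ hv R
  set N := n1 + n2 + j with hN
  obtain ⟨Q', hQ'⟩ := hn1 N (by omega)
  obtain ⟨R', hR'⟩ := hn2 (2 * N - j) (by omega)
  have hmain : P' * R' = Q' ^ 2 - (C (algebraMap A (v.adicCompletionIntegers K) ϖ)) ^ (2 * N) *
      C c0 * f.map (algebraMap A (v.adicCompletionIntegers K)) := by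
    apply hinj
    simp only [Polynomial.map_sub, Polynomial.map_mul, Polynomial.map_pow]
    have hC0 : (C c0).map (algebraMap (v.adicCompletionIntegers K) (v.adicCompletion K)) =
        C (c0 : v.adicCompletion K) := by
      rw [Polynomial.map_C]; rfl
    rw [hP', hR', hQ', hCp, hC0, Polynomial.map_map]
    have h1 : f.map ((algebraMap (v.adicCompletionIntegers K) (v.adicCompletion K)).comp
        (algebraMap A (v.adicCompletionIntegers K))) =
        (f.map (algebraMap A K)).map (algebraMap K (v.adicCompletion K)) := by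
      rw [Polynomial.map_map]
      rfl
    rw [h1]
    set c := C ((algebraMap A (v.adicCompletionIntegers K) ϖ : v.adicCompletionIntegers K) :
        v.adicCompletion K)
    set F := (f.map (algebraMap A K)).map (algebraMap K (v.adicCompletion K))
    have h2 : c ^ j * P * (c ^ (2 * N - j) * R) = c ^ (2 * N) * (P * R) := by
      have : c ^ (2 * N) = c ^ j * c ^ (2 * N - j) := by
        rw [← pow_add]; congr 1; omega
      rw [this]; ring
    rw [h2, ← hR]
    ring
  have hphi' : phiInt K L v w P' = phi K L v w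
      (C ((algebraMap A (v.adicCompletionIntegers K) ϖ : v.adicCompletionIntegers K) :
        v.adicCompletion K)) ^ j * phi K L v w P := by
    rw [phiInt, RingHom.coe_comp, Function.comp, coe_mapRingHom, hP', map_mul, map_pow]
  have hphiC : (Valued.v (phi K L v w
      (C ((algebraMap A (v.adicCompletionIntegers K) ϖ : v.adicCompletionIntegers K) :
        v.adicCompletion K))) : ℤᵐ⁰) =
      (exp (-1 : ℤ)) ^ (v.asIdeal.ramificationIdx' w.asIdeal) := by
    rw [phi, coe_eval₂RingHom, eval₂_C, valued_compMap]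
    congr 1
    exact val_varpi (K := K) v ϖ hϖ hv
  have hne : phiInt K L v w P' ≠ 0 := by
    rw [hphi']
    refine mul_ne_zero (pow_ne_zero _ ?_) hphi
    intro h0
    rw [h0, map_zero] at hphiC
    exact (pow_ne_zero _ exp_ne_zero) hphiC.symm
  have := local_int_tw v w ϖ hϖ hv N c0 hc0 P' Q' R' hne hnd hmain
  rw [hphi', map_mul, map_pow, hphiC, mul_comm] at this
  exact this

end

end Pool.Agent.H94.TC
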