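import Pool.Agent.H94.TC.Local
import Pool.Agent.H94.TC.Global
import Pool.Agent.H94.TC.Frac

/-!
The main theorem for an abstract principal ideal domain `A`.
-/

namespace Pool.Agent.H94.TC

open Polynomial WithZero IsDedekindDomain HeightOneSpectrum

section

variable {A K : Type*} [CommRing A] [IsDomain A] [IsPrincipalIdealRing A] [Field K] [Algebra A K]
  [IsFractionRing A K]

/-- `Δ(θ)` is, at the prime `v`, in the image of `J(K_v)` under the `x - T` map: up to a square
it is `(-1)^r P(θ)` for a Mumford pair `(P, Q)` over `K_v`. -/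
def LocIm (f : A[X]) (v : HeightOneSpectrum A) (Δ : K[X]) : Prop :=
  ∃ P Q G : (v.adicCompletion K)[X], P.Monic ∧
    IsCoprime P ((f.map (algebraMap A K)).map (algebraMap K (v.adicCompletion K))) ∧
    P ∣ Q ^ 2 - (f.map (algebraMap A K)).map (algebraMap K (v.adicCompletion K)) ∧
    (f.map (algebraMap A K)).map (algebraMap K (v.adicCompletion K)) ∣
      Δ.map (algebraMap K (v.adicCompletion K)) * G ^ 2 - (-1) ^ P.natDegree * P

theorem even_of_square_mul {m e j : ℕ}
    (h : IsSquare ((exp (-(m : ℤ)) : ℤᵐ⁰) * ((exp (-1 : ℤ)) ^ e) ^ j)) : Even (m + e * j) := by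
  rw [← pow_mul, ← exp_nsmul, ← exp_add] at h
  have h1 := even_of_isSquare_exp h
  have h2 : (-(m : ℤ) + (e * j) • (-1 : ℤ)) = -((m + e * j : ℕ) : ℤ) := by
    simp only [nsmul_eq_mul]; push_cast; ring
  rw [h2, even_neg] at h1
  exact_mod_cast h1

variable {L : Type*} {f : A[X]} [IsDedekindDomain (AdjoinRoot f)]
  [Module.IsTorsionFree A (AdjoinRoot f)] [Module.Finite A (AdjoinRoot f)]
  [Field L] [Algebra K L] [Algebra A L] [IsScalarTower A K L]
  [Algebra (AdjoinRoot f) L] [IsFractionRing (AdjoinRoot f) L] [IsScalarTower A (AdjoinRoot f) L]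

theorem local_parity (v : HeightOneSpectrum A) (Δ : K[X]) (h : LocIm f v Δ) :
    ∃ j : ℕ, ∀ (w : HeightOneSpectrum (AdjoinRoot f)), w.asIdeal.LiesOver v.asIdeal →
      IsSquare (w.valuation L (aeval (algebraMap (AdjoinRoot f) L (AdjoinRoot.root f)) Δ) *
        ((exp (-1 : ℤ)) ^ (v.asIdeal.ramificationIdx' w.asIdeal)) ^ j) := by
  obtain ⟨ϖ, hϖ, hv⟩ := exists_gen v
  obtain ⟨P, Q, G, hP, hcop, hPQ, hG⟩ := h
  obtain ⟨j, hj⟩ := local_main (f := f) v ϖ hϖ hv P hP
  refine ⟨j, fun w hw => ?_⟩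
  have hfv : phi K L v w ((f.map (algebraMap A K)).map (algebraMap K (v.adicCompletion K))) = 0 := by
    rw [phi_map, aeval_map_algebraMap, aeval_algebraMap_apply, AdjoinRoot.aeval_eq,
      AdjoinRoot.mk_self, map_zero, map_zero]
  have hphi : phi K L v w P ≠ 0 := by
    intro h0
    obtain ⟨a, b, hab⟩ := hcop
    have := congrArg (phi K L v w) hab
    rw [map_add, map_mul, map_mul, h0, hfv, mul_zero, mul_zero, add_zero, map_one] at this
    exact zero_ne_one this
  have h1 := hj L w Q hPQ hphi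
  obtain ⟨R, hR⟩ := hG
  have h2 := congrArg (phi K L v w) hR
  rw [map_sub, map_mul, map_mul, map_mul, hfv, zero_mul, sub_eq_zero, phi_map] at h2
  have h3 := congrArg (fun x => (Valued.v x : ℤᵐ⁰)) h2
  simp only [map_mul, map_pow, map_neg, map_one, Valuation.map_neg, one_pow, one_mul] at h3
  rw [valued_algebraMap] at h3
  rw [← h3] at h1
  have hG0 : (Valued.v (phi K L v w G) : ℤᵐ⁰) ≠ 0 := by
    intro h0
    rw [h0, zero_pow two_ne_zero, mul_zero] at h3
    exact hphi ((Valuation.zero_iff _).1 h3.symm)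
  obtain ⟨s, hs⟩ := h1
  refine ⟨s / Valued.v (phi K L v w G), ?_⟩
  rw [div_mul_div_comm, ← hs]
  field_simp

theorem main_abs (hodd : Odd f.natDegree) (hf : f.Monic)
    (hcl : ∀ c : ClassGroup (AdjoinRoot f), c ^ 2 = 1 → c = 1) (Δ : K[X])
    (hΔ : aeval (algebraMap (AdjoinRoot f) L (AdjoinRoot.root f)) Δ ≠ 0)
    (hN : IsSquare (Algebra.norm K (aeval (algebraMap (AdjoinRoot f) L (AdjoinRoot.root f)) Δ)))
    (hloc : ∀ v : HeightOneSpectrum A, LocIm f v Δ) :
    ∃ (u : (AdjoinRoot f)ˣ) (z : L), aeval (algebraMap (AdjoinRoot f) L (AdjoinRoot.root f)) Δ =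
      algebraMap (AdjoinRoot f) L u * z ^ 2 := by
  classical
  set δ := aeval (algebraMap (AdjoinRoot f) L (AdjoinRoot.root f)) Δ with hδ
  have hint : Algebra.IsIntegral A (AdjoinRoot f) := inferInstance
  obtain ⟨x, y, hy, hxy⟩ := IsFractionRing.div_surjective (A := AdjoinRoot f) δ
  have hy0 : y ≠ 0 := nonZeroDivisors.ne_zero hy
  have hyL : algebraMap (AdjoinRoot f) L y ≠ 0 := by
    rw [Ne, FaithfulSMul.algebraMap_eq_zero_iff]; exact hy0
  have hx0 : x ≠ 0 := by
    rintro rfl
    rw [map_zero, zero_div] at hxy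
    exact hΔ hxy.symm
  have hb : algebraMap (AdjoinRoot f) L (x * y) = δ * (algebraMap (AdjoinRoot f) L y) ^ 2 := by
    rw [← hxy, map_mul]
    field_simp
  -- parity conditions
  have hpar : ∀ v : HeightOneSpectrum A, ∃ j : ℕ, ∀ w : HeightOneSpectrum (AdjoinRoot f),
      w.asIdeal.LiesOver v.asIdeal →
        Even (multiplicity w.asIdeal (Ideal.span {x * y}) +
          v.asIdeal.ramificationIdx' w.asIdeal * j) := by
    intro v
    obtain ⟨j, hj⟩ := local_parity (L := L) v Δ (hloc v)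
    refine ⟨j, fun w hw => ?_⟩
    apply even_of_square_mul
    have hval : w.intValuation (x * y) = w.valuation L (δ * (algebraMap (AdjoinRoot f) L y) ^ 2) := by
      rw [← hb]; exact (w.valuation_of_algebraMap (K := L) (x * y)).symm
    rw [← w.intValuation_eq_exp_neg_multiplicity (mul_ne_zero hx0 hy0), hval, map_mul, map_pow]
    obtain ⟨s, hs⟩ := hj w hw
    refine ⟨s * w.valuation L (algebraMap (AdjoinRoot f) L y), ?_⟩
    rw [mul_right_comm, hs, sq, mul_mul_mul_comm]
  obtain ⟨d, hd, hdw⟩ := exists_twist (A := A) (x * y) (mul_ne_zero hx0 hy0) hpar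
  have hd0 : d ≠ 0 := hd.ne_zero
  have hdB : algebraMap A (AdjoinRoot f) d ≠ 0 := by
    rw [Ne, FaithfulSMul.algebraMap_eq_zero_iff]; exact hd0
  obtain ⟨u, g, hug⟩ := exists_unit_sq hcl (algebraMap A (AdjoinRoot f) d * (x * y))
    (mul_ne_zero hdB (mul_ne_zero hx0 hy0)) hdw
  -- in `L`
  have hL : algebraMap A L d * δ = algebraMap (AdjoinRoot f) L u *
      (algebraMap (AdjoinRoot f) L g / algebraMap (AdjoinRoot f) L y) ^ 2 := by
    have h1 := congrArg (algebraMap (AdjoinRoot f) L) hug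
    rw [map_mul, map_mul _ (u : AdjoinRoot f), map_pow, hb,
      ← IsScalarTower.algebraMap_apply A (AdjoinRoot f) L] at h1
    rw [div_pow, mul_div_assoc', ← h1]
    field_simp
  set z0 := algebraMap (AdjoinRoot f) L g / algebraMap (AdjoinRoot f) L y with hz0
  -- norms
  have hfin : Module.finrank K L = f.natDegree := by
    rw [IsFractionRing.finrank_eq A K (AdjoinRoot f) L]
    exact finrank_quotient_span_eq_natDegree' hf
  have hnu : ∃ c : Aˣ, Algebra.norm K (algebraMap (AdjoinRoot f) L u) =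
      algebraMap A K c := by
    have hfree : Module.Free A (AdjoinRoot f) := hf.free_adjoinRoot
    refine ⟨Units.map (Algebra.norm A) u, ?_⟩
    rw [Units.coe_map]
    exact Algebra.norm_localization A (nonZeroDivisors A) (u : AdjoinRoot f)
  obtain ⟨c, hc⟩ := hnu
  obtain ⟨s, hs⟩ := hN
  have hNL := congrArg (Algebra.norm K) hL
  rw [map_mul, map_mul, map_pow, hc, hs, IsScalarTower.algebraMap_apply A K L,
    Algebra.norm_algebraMap, hfin] at hNL
  have hz00 : z0 ≠ 0 := by
    intro h0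
    rw [h0, zero_pow two_ne_zero, mul_zero, mul_eq_zero] at hL
    rcases hL with hL | hL
    · rw [IsScalarTower.algebraMap_apply A (AdjoinRoot f) L] at hL
      rw [FaithfulSMul.algebraMap_eq_zero_iff] at hL
      exact hdB hL
    · exact hΔ hL
  have hNz : Algebra.norm K z0 ≠ 0 := by
    have hfd : FiniteDimensional K L := by
      apply Module.finite_of_finrank_pos
      rw [hfin]
      exact hodd.pos
    rw [Ne, Algebra.norm_eq_zero_iff]
    exact hz00
  have hcK : algebraMap A K c ≠ 0 := by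
    rw [Ne, FaithfulSMul.algebraMap_eq_zero_iff]; exact c.ne_zero
  have hdK : algebraMap A K d ≠ 0 := by
    rw [Ne, FaithfulSMul.algebraMap_eq_zero_iff]; exact hd0
  have hs0 : s ≠ 0 := by
    rintro rfl
    rw [mul_zero, mul_zero] at hNL
    exact (mul_ne_zero hcK (pow_ne_zero 2 hNz)) hNL.symm
  obtain ⟨k, hk⟩ := hodd
  -- `d` is a unit times a square in `K`
  have hdt : algebraMap A K d = algebraMap A K c *
      (Algebra.norm K z0 / ((algebraMap A K d) ^ k * s)) ^ 2 := by
    rw [hk] at hNL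
    rw [div_pow, mul_div_assoc', ← hNL, eq_div_iff (pow_ne_zero 2
      (mul_ne_zero (pow_ne_zero k hdK) hs0))]
    ring
  obtain ⟨p, q, hpq, hpq'⟩ := IsFractionRing.exists_reduced_fraction (A := A)
    (Algebra.norm K z0 / ((algebraMap A K d) ^ k * s))
  rw [← hpq', IsFractionRing.mk'_eq_div] at hdt
  have hqK : algebraMap A K (q : A) ≠ 0 := by
    rw [Ne, FaithfulSMul.algebraMap_eq_zero_iff]; exact nonZeroDivisors.coe_ne_zero q
  have hdq : d * (q : A) ^ 2 = c * p ^ 2 := by
    apply IsFractionRing.injective A K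
    rw [map_mul, map_mul, map_pow, map_pow]
    rw [div_pow] at hdt
    field_simp at hdt
    rw [hdt]
  have hqu : IsUnit (q : A) := by
    have h1 : (q : A) ^ 2 ∣ p ^ 2 := by
      have h2 : (q : A) ^ 2 ∣ c * p ^ 2 := ⟨d, by rw [← hdq]; ring⟩
      exact (c.isUnit.dvd_mul_left).1 h2
    have h3 : (q : A) ∣ p := (IsIntegrallyClosed.pow_dvd_pow_iff two_ne_zero).1 h1
    exact hpq h3 dvd_rfl
  have hpu : IsUnit p := by
    apply hd
    have h4 : p * p ∣ d * (q : A) ^ 2 := ⟨c, by rw [hdq]; ring⟩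
    exact ((hqu.pow 2).dvd_mul_right).1 h4
  have hdu : IsUnit d := by
    have h5 : IsUnit (d * (q : A) ^ 2) := by
      rw [hdq]
      exact c.isUnit.mul (hpu.pow 2)
    exact isUnit_of_mul_isUnit_left h5
  obtain ⟨d', rfl⟩ := hdu
  refine ⟨(Units.map (algebraMap A (AdjoinRoot f)).toMonoidHom d')⁻¹ * u, z0, ?_⟩
  have h6 : algebraMap (AdjoinRoot f) L
      (((Units.map (algebraMap A (AdjoinRoot f)).toMonoidHom d')⁻¹ * u :
        (AdjoinRoot f)ˣ) : AdjoinRoot f) * algebraMap A L d' = algebraMap (AdjoinRoot f) L u := by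
    rw [IsScalarTower.algebraMap_apply A (AdjoinRoot f) L, ← map_mul]
    congr 1
    have : ((Units.map (algebraMap A (AdjoinRoot f)).toMonoidHom d' : (AdjoinRoot f)ˣ) :
      AdjoinRoot f) = algebraMap A (AdjoinRoot f) d' := rfl
    rw [← this, ← Units.val_mul, mul_comm, mul_inv_cancel_left]
  have hdL : algebraMap A L d' ≠ 0 := by
    rw [IsScalarTower.algebraMap_apply A (AdjoinRoot f) L, Ne,
      FaithfulSMul.algebraMap_eq_zero_iff]
    exact hdB
  apply mul_left_cancel₀ hdL
  rw [hL, ← h6]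
  ring

end

end Pool.Agent.H94.TC
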