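import Pool.Agent.H94.TC.LocalTw
import Pool.Agent.H94.TC.MainPar
import Pool.Agent.H94.TC.Inert
import Pool.Agent.H94.TC.Final

/-!
The main theorem for the quadratic twist `D y² = f(x)`, where every prime factor of `D` has only
one prime above it.
-/

namespace Pool.Agent.H94.TC

open Polynomial WithZero IsDedekindDomain HeightOneSpectrum

section

variable {A K : Type*} [CommRing A] [IsDomain A] [IsPrincipalIdealRing A] [Field K] [Algebra A K]
  [IsFractionRing A K]

/-- `Δ(θ)` is, at the prime `v`, up to a square, `(-D)^r P(θ)` for a Mumford pair `(P, Q)` over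
`K_v` of `D y² = f(x)`. -/
def LocImTw (f : A[X]) (D : A) (v : HeightOneSpectrum A) (Δ : K[X]) : Prop :=
  ∃ P Q G : (v.adicCompletion K)[X], P.Monic ∧
    IsCoprime P ((f.map (algebraMap A K)).map (algebraMap K (v.adicCompletion K))) ∧
    P ∣ C (algebraMap K (v.adicCompletion K) (algebraMap A K D)) * Q ^ 2 -
      (f.map (algebraMap A K)).map (algebraMap K (v.adicCompletion K)) ∧
    (f.map (algebraMap A K)).map (algebraMap K (v.adicCompletion K)) ∣
      Δ.map (algebraMap K (v.adicCompletion K)) * G ^ 2 -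
        (-C (algebraMap K (v.adicCompletion K) (algebraMap A K D))) ^ P.natDegree * P

section

variable {L : Type*} {f : A[X]} [IsDedekindDomain (AdjoinRoot f)]
  [Module.IsTorsionFree A (AdjoinRoot f)]
  [Field L] [Algebra K L] [Algebra A L] [IsScalarTower A K L]
  [Algebra (AdjoinRoot f) L] [IsFractionRing (AdjoinRoot f) L] [IsScalarTower A (AdjoinRoot f) L]

theorem local_parity_tw (v : HeightOneSpectrum A) (D : A) (hD : D ∉ v.asIdeal)
    (Δ : K[X]) (h : LocImTw f D v Δ) :
    ∃ j : ℕ, ∀ (w : HeightOneSpectrum (AdjoinRoot f)), w.asIdeal.LiesOver v.asIdeal →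
      IsSquare (w.valuation L (aeval (algebraMap (AdjoinRoot f) L (AdjoinRoot.root f)) Δ) *
        ((exp (-1 : ℤ)) ^ (v.asIdeal.ramificationIdx' w.asIdeal)) ^ j) := by
  obtain ⟨ϖ, hϖ, hv⟩ := exists_gen v
  obtain ⟨P, Q, G, hP, hcop, hPQ, hG⟩ := h
  -- the unit `D`
  set D0 : v.adicCompletionIntegers K := algebraMap A (v.adicCompletionIntegers K) D with hD0
  have hDvK : algebraMap K (v.adicCompletion K) (algebraMap A K D) = (D0 : v.adicCompletion K) :=
    rfl
  rw [hDvK] at hPQ hG
  have hval : (Valued.v (D0 : v.adicCompletion K) : ℤᵐ⁰) = 1 := by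
    rw [hD0, val_alg]
    exact (intValuation_eq_one_iff).2 hD
  have hDunit : IsUnit D0 := by
    rw [adicCompletionIntegers.isUnit_iff_valued_eq_one]; exact hval
  set Dv : v.adicCompletion K := (D0 : v.adicCompletion K) with hDv
  set fv := (f.map (algebraMap A K)).map (algebraMap K (v.adicCompletion K)) with hfv
  obtain ⟨j, hj⟩ := local_main_tw (f := f) v ϖ hϖ hv D0 hDunit P hP
  refine ⟨j, fun w hw => ?_⟩
  have hfv0 : phi K L v w fv = 0 := by
    rw [hfv, phi_map, aeval_map_algebraMap, aeval_algebraMap_apply, AdjoinRoot.aeval_eq,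
      AdjoinRoot.mk_self, map_zero, map_zero]
  have hvalC : (Valued.v (phi K L v w (C Dv)) : ℤᵐ⁰) = 1 := by
    rw [phi, coe_eval₂RingHom, eval₂_C, valued_compMap, hval, one_pow]
  have hphi : phi K L v w P ≠ 0 := by
    intro h0
    obtain ⟨a, b, hab⟩ := hcop
    have := congrArg (phi K L v w) hab
    rw [map_add, map_mul, map_mul, h0, hfv0, mul_zero, mul_zero, add_zero, map_one] at this
    exact zero_ne_one this
  have hdvd : P ∣ (C Dv * Q) ^ 2 - C Dv * fv := by
    have h1 : (C Dv * Q) ^ 2 - C Dv * fv = C Dv * (C Dv * Q ^ 2 - fv) := by ring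
    rw [h1]
    exact hPQ.mul_left _
  have h1 := hj L w (C Dv * Q) hdvd hphi
  obtain ⟨R, hR⟩ := hG
  have h2 := congrArg (phi K L v w) hR
  rw [map_sub, map_mul, map_mul, map_mul, hfv0, zero_mul, sub_eq_zero, phi_map] at h2
  have h3 := congrArg (fun x => (Valued.v x : ℤᵐ⁰)) h2
  simp only [map_mul, map_pow, map_neg, Valuation.map_neg] at h3
  rw [valued_algebraMap, hvalC, one_pow, one_mul] at h3
  rw [← h3] at h1
  have hG0 : (Valued.v (phi K L v w G) : ℤᵐ⁰) ≠ 0 := by
    intro h0
    rw [h0, zero_pow two_ne_zero, mul_zero] at h3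
    exact hphi ((Valuation.zero_iff _).1 h3.symm)
  obtain ⟨s, hs⟩ := h1
  refine ⟨s / Valued.v (phi K L v w G), ?_⟩
  rw [div_mul_div_comm, ← hs]
  field_simp

end

theorem final_tw (f : A[X]) (hf : f.Monic) (hodd : Odd f.natDegree)
    [IsDomain (AdjoinRoot f)] [IsIntegrallyClosed (AdjoinRoot f)]
    (hcl : ∀ c : ClassGroup (AdjoinRoot f), c ^ 2 = 1 → c = 1)
    (D : A) (hD : ∀ P : A, Prime P → P ∣ D → ∀ w w' : Ideal (AdjoinRoot f), w.IsPrime → w'.IsPrime →
      algebraMap A (AdjoinRoot f) P ∈ w → algebraMap A (AdjoinRoot f) P ∈ w' → w = w')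
    (Δ : K[X])
    (hΔ : IsCoprime Δ (f.map (algebraMap A K)))
    (hN : IsSquare (Algebra.norm K (AdjoinRoot.mk (f.map (algebraMap A K)) Δ)))
    (hloc : ∀ v : HeightOneSpectrum A, LocImTw f D v Δ) :
    ∃ (u : (AdjoinRoot f)ˣ) (z : AdjoinRoot (f.map (algebraMap A K))),
      AdjoinRoot.mk (f.map (algebraMap A K)) Δ = toField K f u * z ^ 2 := by
  letI : Fact (Irreducible (f.map (algebraMap A K))) := ⟨irreducible_map K f hf⟩
  letI := (toField K f).toAlgebra
  haveI : IsFractionRing (AdjoinRoot f) (AdjoinRoot (f.map (algebraMap A K))) :=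
    isFractionRing_toField K f hf
  haveI := isDedekind_adjoinRoot f hf
  haveI := torsionFree_adjoinRoot f hf
  haveI : Module.Finite A (AdjoinRoot f) := hf.finite_adjoinRoot
  haveI : IsScalarTower A (AdjoinRoot f) (AdjoinRoot (f.map (algebraMap A K))) := by
    refine IsScalarTower.of_algebraMap_eq fun x => ?_
    show _ = toField K f _
    have h1 : algebraMap A (AdjoinRoot f) x = AdjoinRoot.mk f (C x) := rfl
    rw [h1, toField_mk, Polynomial.map_C]
    rfl
  have hroot : algebraMap (AdjoinRoot f) (AdjoinRoot (f.map (algebraMap A K)))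
      (AdjoinRoot.root f) = AdjoinRoot.root (f.map (algebraMap A K)) := by
    show toField K f _ = _
    rw [toField, AdjoinRoot.map_root]
  have haev : aeval (algebraMap (AdjoinRoot f) (AdjoinRoot (f.map (algebraMap A K)))
      (AdjoinRoot.root f)) Δ = AdjoinRoot.mk (f.map (algebraMap A K)) Δ := by
    rw [hroot, AdjoinRoot.aeval_eq]
  have hne : AdjoinRoot.mk (f.map (algebraMap A K)) Δ ≠ 0 := by
    intro h0
    obtain ⟨a, b, hab⟩ := hΔ
    have := congrArg (AdjoinRoot.mk (f.map (algebraMap A K))) hab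
    rw [map_add, map_mul, map_mul, h0, AdjoinRoot.mk_self, mul_zero, mul_zero, add_zero,
      map_one] at this
    exact zero_ne_one this
  refine main_par (K := K) (L := AdjoinRoot (f.map (algebraMap A K))) hodd hf hcl _ hne hN
    fun v => ?_
  by_cases hv : D ∈ v.asIdeal
  · obtain ⟨ϖ, hϖ, hv'⟩ := exists_gen v
    refine inert_parity hf hodd v ϖ hϖ hv' (fun w w' hw hw' => ?_) _ hne hN
    refine HeightOneSpectrum.ext (hD ϖ ?_ ?_ _ _ w.isPrime w'.isPrime hw hw')
    · rw [← Ideal.span_singleton_prime hϖ, ← hv']; exact v.isPrime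
    · rwa [hv', Ideal.mem_span_singleton] at hv
  · have h1 := local_parity_tw (L := AdjoinRoot (f.map (algebraMap A K))) v D hv Δ (hloc v)
    rwa [haev] at h1

end

end Pool.Agent.H94.TC
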